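import Mathlib

/-!
Random subsets: the weight of a family of subsets of a finite type, where every element
is present independently with probability `p`.
-/

namespace Pool.Agent.Helper56.Iso

open Finset

variable {α : Type*} [Fintype α] [DecidableEq α]

/-- the weight of a single subset -/
noncomputable def wt (p : ℝ) (E : Finset α) : ℝ := p ^ E.card * (1 - p) ^ (univ \ E).card

theorem wt_nonneg {p : ℝ} (h0 : 0 ≤ p) (h1 : p ≤ 1) (E : Finset α) : 0 ≤ wt p E := by
  unfold wt
  have : 0 ≤ 1 - p := by linarith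
  positivity

theorem mgf (p θ : ℝ) (R : Finset α) :
    ∑ E : Finset α, wt p E * θ ^ (E ∩ R).card = (1 - p + p * θ) ^ R.card := by
  have h := Finset.prod_add (fun e : α => p * (if e ∈ R then θ else 1)) (fun _ => 1 - p) univ
  rw [Finset.powerset_univ] at h
  have h2 : ∏ e : α, (p * (if e ∈ R then θ else 1) + (1 - p)) = (1 - p + p * θ) ^ R.card := by
    have : ∀ e : α, (p * (if e ∈ R then θ else 1) + (1 - p)) =
        (if e ∈ R then (1 - p + p * θ) else 1) := by
      intro e
      split_ifs <;> ring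
    rw [Finset.prod_congr rfl (fun e _ => this e), Finset.prod_ite_mem, Finset.univ_inter,
      Finset.prod_const]
  rw [← h2, h]
  apply Finset.sum_congr rfl
  intro E _
  rw [Finset.prod_mul_distrib, Finset.prod_const, Finset.prod_ite_mem, Finset.prod_const,
    Finset.prod_const]
  unfold wt
  ring

/-- the probability of an event -/
noncomputable def Pr (p : ℝ) (Bad : Finset α → Prop) : ℝ :=
  ∑ E : Finset α, Set.indicator {E | Bad E} (wt p) E

theorem ind_of {p : ℝ} {Bad : Finset α → Prop} {E : Finset α} (h : Bad E) :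
    Set.indicator {E | Bad E} (wt p) E = wt p E := Set.indicator_of_mem h _

theorem ind_not {p : ℝ} {Bad : Finset α → Prop} {E : Finset α} (h : ¬ Bad E) :
    Set.indicator {E | Bad E} (wt p) E = 0 := Set.indicator_of_notMem h _

theorem ind_nonneg {p : ℝ} (h0 : 0 ≤ p) (h1 : p ≤ 1) (Bad : Finset α → Prop) (E : Finset α) :
    0 ≤ Set.indicator {E | Bad E} (wt p) E :=
  Set.indicator_nonneg (fun E _ => wt_nonneg h0 h1 E) E

theorem Pr_true (p : ℝ) : Pr p (fun _ : Finset α => True) = 1 := by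
  have := mgf p 1 (∅ : Finset α)
  unfold Pr
  rw [← show ((1 - p + p * 1) ^ (∅ : Finset α).card : ℝ) = 1 by simp, ← this]
  apply Finset.sum_congr rfl
  intro E _
  rw [ind_of trivial]
  simp

theorem Pr_mono {p : ℝ} (h0 : 0 ≤ p) (h1 : p ≤ 1) {P Q : Finset α → Prop}
    (h : ∀ E, P E → Q E) : Pr p P ≤ Pr p Q := by
  unfold Pr
  apply Finset.sum_le_sum
  intro E _
  by_cases hP : P E
  · rw [ind_of hP, ind_of (h E hP)]
  · rw [ind_not hP]
    exact ind_nonneg h0 h1 Q E

theorem Pr_exists_le {p : ℝ} (h0 : 0 ≤ p) (h1 : p ≤ 1) {ι : Type*} (I : Finset ι)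
    (P : ι → Finset α → Prop) :
    Pr p (fun E => ∃ i ∈ I, P i E) ≤ ∑ i ∈ I, Pr p (P i) := by
  unfold Pr
  rw [Finset.sum_comm]
  apply Finset.sum_le_sum
  intro E _
  by_cases hP : ∃ i ∈ I, P i E
  · rw [ind_of hP]
    obtain ⟨i, hi, hPi⟩ := hP
    rw [← ind_of (p := p) hPi]
    exact Finset.single_le_sum
      (f := fun j => Set.indicator {E | P j E} (wt p) E)
      (fun j _ => ind_nonneg h0 h1 (P j) E) hi
  · rw [ind_not hP]
    exact Finset.sum_nonneg (fun j _ => ind_nonneg h0 h1 (P j) E)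

theorem Pr_or_le {p : ℝ} (h0 : 0 ≤ p) (h1 : p ≤ 1) (P Q : Finset α → Prop) :
    Pr p (fun E => P E ∨ Q E) ≤ Pr p P + Pr p Q := by
  unfold Pr
  rw [← Finset.sum_add_distrib]
  apply Finset.sum_le_sum
  intro E _
  have hp := ind_nonneg h0 h1 P E
  have hq := ind_nonneg h0 h1 Q E
  by_cases hP : P E
  · rw [ind_of (Or.inl hP : P E ∨ Q E), ind_of hP]
    linarith
  · by_cases hQ : Q E
    · rw [ind_of (Or.inr hQ : P E ∨ Q E), ind_of hQ]
      linarith
    · rw [ind_not (by tauto : ¬ (P E ∨ Q E))]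
      linarith

/-- if the probability of the bad event is less than one, then a good set exists -/
theorem exists_good {p : ℝ} {Bad : Finset α → Prop} (h : Pr p Bad < 1) : ∃ E, ¬ Bad E := by
  by_contra hcon
  push Not at hcon
  have : Pr p Bad = Pr p (fun _ : Finset α => True) := by
    unfold Pr
    apply Finset.sum_congr rfl
    intro E _
    rw [ind_of (hcon E), ind_of trivial]
  rw [this, Pr_true] at h
  exact lt_irrefl _ h

theorem upper_tail {p θ : ℝ} (h0 : 0 ≤ p) (h1 : p ≤ 1) (hθ : 1 ≤ θ) (R : Finset α) (k : ℕ) :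
    Pr p (fun E => k ≤ (E ∩ R).card) * θ ^ k ≤ Real.exp (p * θ * R.card) := by
  have hm := mgf p θ R
  have h2 : Pr p (fun E => k ≤ (E ∩ R).card) * θ ^ k ≤ (1 - p + p * θ) ^ R.card := by
    rw [← hm]
    unfold Pr
    rw [Finset.sum_mul]
    apply Finset.sum_le_sum
    intro E _
    by_cases hE : k ≤ (E ∩ R).card
    · rw [ind_of (Bad := fun E => k ≤ (E ∩ R).card) hE]
      apply mul_le_mul_of_nonneg_left _ (wt_nonneg h0 h1 E)
      exact pow_le_pow_right₀ hθ hE
    · rw [ind_not (Bad := fun E => k ≤ (E ∩ R).card) hE, zero_mul]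
      have := wt_nonneg h0 h1 E
      positivity
  refine h2.trans ?_
  have h3 : 1 - p + p * θ ≤ Real.exp (p * θ) := by
    have := Real.add_one_le_exp (p * θ)
    linarith
  have h4 : 0 ≤ 1 - p + p * θ := by
    have : 0 ≤ p * θ := by positivity
    linarith
  calc (1 - p + p * θ) ^ R.card ≤ Real.exp (p * θ) ^ R.card := pow_le_pow_left₀ h4 h3 _
    _ = Real.exp (p * θ * R.card) := by rw [← Real.exp_nat_mul]; ring_nf

theorem lower_tail {p : ℝ} (h0 : 0 ≤ p) (h1 : p ≤ 1) (R : Finset α) (k : ℕ) :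
    Pr p (fun E => (E ∩ R).card ≤ k) ≤ 2 ^ k * Real.exp (-(p * R.card / 2)) := by
  have hm := mgf p (1 / 2) R
  have h2 : Pr p (fun E => (E ∩ R).card ≤ k) * (1 / 2) ^ k ≤
      (1 - p + p * (1 / 2)) ^ R.card := by
    rw [← hm]
    unfold Pr
    rw [Finset.sum_mul]
    apply Finset.sum_le_sum
    intro E _
    by_cases hE : (E ∩ R).card ≤ k
    · rw [ind_of (Bad := fun E => (E ∩ R).card ≤ k) hE]
      apply mul_le_mul_of_nonneg_left _ (wt_nonneg h0 h1 E)
      exact pow_le_pow_of_le_one (by norm_num) (by norm_num) hE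
    · rw [ind_not (Bad := fun E => (E ∩ R).card ≤ k) hE, zero_mul]
      have := wt_nonneg h0 h1 E
      positivity
  have h3 : 1 - p + p * (1 / 2) ≤ Real.exp (-(p / 2)) := by
    have := Real.add_one_le_exp (-(p / 2))
    linarith
  have h4 : 0 ≤ 1 - p + p * (1 / 2) := by linarith
  have h5 : (1 - p + p * (1 / 2)) ^ R.card ≤ Real.exp (-(p * R.card / 2)) := by
    calc (1 - p + p * (1 / 2)) ^ R.card ≤ Real.exp (-(p / 2)) ^ R.card :=
          pow_le_pow_left₀ h4 h3 _
      _ = Real.exp (-(p * R.card / 2)) := by rw [← Real.exp_nat_mul]; ring_nf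
  have h6 : Pr p (fun E => (E ∩ R).card ≤ k) =
      (Pr p (fun E => (E ∩ R).card ≤ k) * (1 / 2) ^ k) * 2 ^ k := by
    rw [mul_assoc, ← mul_pow]
    norm_num
  rw [h6, mul_comm]
  apply mul_le_mul_of_nonneg_left _ (by positivity)
  exact h2.trans h5

end Pool.Agent.Helper56.Iso
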