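import Pool.Agent.Helper56.Iso.Graph
import Pool.Agent.Helper56.Iso.Prob

/-!
Probabilities of the bad events.
-/

namespace Pool.Agent.Helper56.Iso

open Finset

theorem Pr_union {α : Type*} [Fintype α] [DecidableEq α] {p : ℝ} (h0 : 0 ≤ p) (h1 : p ≤ 1)
    {ι : Type*} (I : Finset ι) (P : ι → Finset α → Prop) {bd : ℝ}
    (h : ∀ i ∈ I, Pr p (P i) ≤ bd) : Pr p (fun E => ∃ i ∈ I, P i E) ≤ I.card * bd := by
  refine (Pr_exists_le h0 h1 I P).trans ?_
  calc ∑ i ∈ I, Pr p (P i) ≤ ∑ _i ∈ I, bd := Finset.sum_le_sum h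
    _ = I.card * bd := by rw [Finset.sum_const, nsmul_eq_mul]

variable {n : ℕ}

theorem card_fin2 : Fintype.card (Finset (Fin n) × Finset (Fin n)) = 4 ^ n := by
  rw [Fintype.card_prod, Fintype.card_finset, Fintype.card_fin, ← mul_pow]
  norm_num

theorem card_sym2_le (hn : 0 < n) : Fintype.card (Sym2 (Fin n)) ≤ n ^ 2 := by
  rw [Sym2.card, Fintype.card_fin, Nat.choose_two_right, Nat.add_sub_cancel]
  rw [pow_two]
  apply Nat.div_le_of_le_mul
  nlinarith

theorem bad1 {p : ℝ} (h0 : 0 ≤ p) (h1 : p ≤ 1) (B : ℕ) :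
    Pr p (fun E : Finset (Sym2 (Fin n)) => ∃ S T : Finset (Fin n), Disjoint S T ∧
      B ≤ S.card ∧ B ≤ T.card ∧ (E ∩ cross S T).card ≤ 0) ≤
      4 ^ n * Real.exp (-(p * (B * B) / 2)) := by
  classical
  set I : Finset (Finset (Fin n) × Finset (Fin n)) :=
    univ.filter (fun q => Disjoint q.1 q.2 ∧ B ≤ q.1.card ∧ B ≤ q.2.card) with hI
  have h2 := Pr_union (α := Sym2 (Fin n)) h0 h1 I (fun q E => (E ∩ cross q.1 q.2).card ≤ 0)
    (bd := Real.exp (-(p * (B * B) / 2))) (by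
      intro q hq
      obtain ⟨_, hd, hS, hT⟩ := mem_filter.1 hq
      refine (lower_tail h0 h1 (cross q.1 q.2) 0).trans ?_
      rw [pow_zero, one_mul, card_cross hd]
      apply Real.exp_le_exp.2
      have h3 : (B * B : ℝ) ≤ ((q.1.card * q.2.card : ℕ) : ℝ) := by
        exact_mod_cast Nat.mul_le_mul hS hT
      have h4 := mul_le_mul_of_nonneg_left h3 h0
      linarith)
  have h3 : (I.card : ℝ) ≤ 4 ^ n := by
    have : I.card ≤ 4 ^ n := by
      rw [← card_fin2 (n := n)]; exact card_le_univ I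
    exact_mod_cast this
  refine (Pr_mono h0 h1 ?_).trans (h2.trans (mul_le_mul_of_nonneg_right h3
    (Real.exp_nonneg _)))
  rintro E ⟨S, T, hd, hS, hT, hc⟩
  exact ⟨(S, T), mem_filter.2 ⟨mem_univ _, hd, hS, hT⟩, hc⟩

theorem bad2 {p θ : ℝ} (h0 : 0 ≤ p) (h1 : p ≤ 1) (hθ : 1 ≤ θ) (z0 H : ℕ) :
    Pr p (fun E : Finset (Sym2 (Fin n)) => ∃ Z : Finset (Fin n), Z.card ≤ z0 ∧
      H + 1 ≤ (E ∩ cross Z univ).card) ≤
      2 ^ n * (Real.exp (p * θ * (z0 * n)) / θ ^ H) := by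
  classical
  set I : Finset (Finset (Fin n)) := univ.filter (fun Z => Z.card ≤ z0) with hI
  have hθ0 : 0 < θ := by linarith
  have h2 := Pr_union (α := Sym2 (Fin n)) h0 h1 I (fun Z E => H + 1 ≤ (E ∩ cross Z univ).card)
    (bd := Real.exp (p * θ * (z0 * n)) / θ ^ H) (by
      intro Z hZ
      obtain ⟨_, hZ⟩ := mem_filter.1 hZ
      have h3 := upper_tail h0 h1 hθ (cross Z (univ : Finset (Fin n))) (H + 1)
      rw [le_div_iff₀ (by positivity)]
      have h4 : Pr p (fun E : Finset (Sym2 (Fin n)) => H + 1 ≤ (E ∩ cross Z univ).card) * θ ^ H ≤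
          Pr p (fun E : Finset (Sym2 (Fin n)) => H + 1 ≤ (E ∩ cross Z univ).card) *
            θ ^ (H + 1) := by
        apply mul_le_mul_of_nonneg_left (pow_le_pow_right₀ hθ (Nat.le_succ H))
        exact Finset.sum_nonneg (fun E _ => ind_nonneg h0 h1 _ E)
      refine h4.trans (h3.trans (Real.exp_le_exp.2 ?_))
      apply mul_le_mul_of_nonneg_left _ (by positivity)
      have h5 : (cross Z (univ : Finset (Fin n))).card ≤ z0 * n := by
        refine (card_cross_le _ _).trans ?_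
        rw [card_univ, Fintype.card_fin]
        exact Nat.mul_le_mul_right _ hZ
      exact_mod_cast h5)
  have h3 : (I.card : ℝ) ≤ 2 ^ n := by
    have : I.card ≤ 2 ^ n := by
      have := card_le_univ I
      rwa [Fintype.card_finset, Fintype.card_fin] at this
    exact_mod_cast this
  refine (Pr_mono h0 h1 ?_).trans (h2.trans (mul_le_mul_of_nonneg_right h3 (by positivity)))
  rintro E ⟨Z, hZ, hc⟩
  exact ⟨Z, mem_filter.2 ⟨mem_univ _, hZ⟩, hc⟩

theorem bad3 {p : ℝ} (h0 : 0 ≤ p) (h1 : p ≤ 1) (R K' δ : ℕ) :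
    Pr p (fun E : Finset (Sym2 (Fin n)) => ∃ Y A : Finset (Fin n), Disjoint Y A ∧
      Y.card = R ∧ K' ≤ A.card ∧ (E ∩ cross Y A).card ≤ δ * R) ≤
      4 ^ n * (2 ^ (δ * R) * Real.exp (-(p * (R * K') / 2))) := by
  classical
  set I : Finset (Finset (Fin n) × Finset (Fin n)) :=
    univ.filter (fun q => Disjoint q.1 q.2 ∧ q.1.card = R ∧ K' ≤ q.2.card) with hI
  have h2 := Pr_union (α := Sym2 (Fin n)) h0 h1 I (fun q E => (E ∩ cross q.1 q.2).card ≤ δ * R)
    (bd := 2 ^ (δ * R) * Real.exp (-(p * (R * K') / 2))) (by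
      intro q hq
      obtain ⟨_, hd, hS, hT⟩ := mem_filter.1 hq
      refine (lower_tail h0 h1 (cross q.1 q.2) (δ * R)).trans ?_
      rw [card_cross hd]
      apply mul_le_mul_of_nonneg_left _ (by positivity)
      apply Real.exp_le_exp.2
      have h3 : (R * K' : ℝ) ≤ ((q.1.card * q.2.card : ℕ) : ℝ) := by
        exact_mod_cast Nat.mul_le_mul hS.ge hT
      have h4 := mul_le_mul_of_nonneg_left h3 h0
      linarith)
  have h3 : (I.card : ℝ) ≤ 4 ^ n := by
    have : I.card ≤ 4 ^ n := by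
      rw [← card_fin2 (n := n)]; exact card_le_univ I
    exact_mod_cast this
  refine (Pr_mono h0 h1 ?_).trans (h2.trans (mul_le_mul_of_nonneg_right h3 (by positivity)))
  rintro E ⟨S, T, hd, hS, hT, hc⟩
  exact ⟨(S, T), mem_filter.2 ⟨mem_univ _, hd, hS, hT⟩, hc⟩

/-- the fourth bad event -/
def Bad4 (t : ℕ) (E : Finset (Sym2 (Fin n))) : Prop :=
  ∃ (c : Fin t → Fin n × Fin n) (P : Finset (Sym2 (Fin n))), P.card = 4 * t ∧
    (P ∪ P.image (Sym2.map (mv c))).card = 8 * t ∧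
    8 * t ≤ (E ∩ (P ∪ P.image (Sym2.map (mv c)))).card

theorem choose_le_exp (N k : ℕ) (hk : 0 < k) :
    (N.choose k : ℝ) ≤ (Real.exp 1 * N / k) ^ k := by
  have h1 : (N.choose k : ℝ) ≤ (N : ℝ) ^ k / (k.factorial : ℝ) := Nat.choose_le_pow_div k N
  have h2 : (k : ℝ) ^ k / k.factorial ≤ Real.exp k :=
    Real.pow_div_factorial_le_exp (k : ℝ) (by positivity) k
  have hk' : (0 : ℝ) < k := by exact_mod_cast hk
  have hf : (0 : ℝ) < k.factorial := by exact_mod_cast Nat.factorial_pos k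
  refine h1.trans ?_
  rw [div_pow, mul_pow, ← Real.exp_nat_mul, mul_one]
  rw [div_le_div_iff₀ hf (by positivity)]
  rw [div_le_iff₀ hf] at h2
  calc (N : ℝ) ^ k * (k : ℝ) ^ k ≤ (N : ℝ) ^ k * (Real.exp k * k.factorial) :=
        mul_le_mul_of_nonneg_left h2 (by positivity)
    _ = Real.exp k * (N : ℝ) ^ k * k.factorial := by ring

theorem bad4 {p : ℝ} (h0 : 0 < p) (h1 : p ≤ 1) (hn : 0 < n) {t : ℕ} (ht : 0 < t) :
    Pr p (fun E : Finset (Sym2 (Fin n)) => Bad4 t E) ≤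
      ((n : ℝ) ^ 2 * (Real.exp 1 * (n : ℝ) ^ 2 / (4 * t)) ^ 4 *
        (Real.exp 1 * p) ^ 8) ^ t := by
  classical
  set I : Finset ((Fin t → Fin n × Fin n) × Finset (Sym2 (Fin n))) :=
    (univ ×ˢ (univ.powersetCard (4 * t))).filter
      (fun q => (q.2 ∪ q.2.image (Sym2.map (mv q.1))).card = 8 * t) with hI
  have hθ : 1 ≤ 1 / p := by rw [le_div_iff₀ h0]; linarith
  have h2 := Pr_union (α := Sym2 (Fin n)) h0.le h1 I
    (fun q E => 8 * t ≤ (E ∩ (q.2 ∪ q.2.image (Sym2.map (mv q.1)))).card)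
    (bd := (Real.exp 1 * p) ^ (8 * t)) (by
      intro q hq
      obtain ⟨_, hq⟩ := mem_filter.1 hq
      have h3 := upper_tail h0.le h1 hθ (q.2 ∪ q.2.image (Sym2.map (mv q.1))) (8 * t)
      rw [hq, mul_one_div_cancel h0.ne', one_mul] at h3
      rw [mul_pow, ← Real.exp_nat_mul, mul_one]
      rw [one_div, inv_pow] at h3
      rw [← div_eq_mul_inv, div_le_iff₀ (by positivity)] at h3
      exact h3)
  have h3 : (I.card : ℝ) ≤ ((n : ℝ) ^ 2) ^ t *
      (Real.exp 1 * (n : ℝ) ^ 2 / (4 * t)) ^ (4 * t) := by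
    have e1 : I.card ≤ (n * n) ^ t * (Fintype.card (Sym2 (Fin n))).choose (4 * t) := by
      refine (card_filter_le _ _).trans ?_
      rw [card_product, card_powersetCard, card_univ, card_univ]
      simp
    have e2 : ((Fintype.card (Sym2 (Fin n))).choose (4 * t) : ℝ) ≤
        (Real.exp 1 * (n : ℝ) ^ 2 / (4 * t)) ^ (4 * t) := by
      have e3 := choose_le_exp (n ^ 2) (4 * t) (by omega)
      push_cast at e3
      refine le_trans ?_ e3
      exact_mod_cast Nat.choose_le_choose (4 * t) (card_sym2_le hn)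
    calc (I.card : ℝ) ≤ ((n * n) ^ t : ℝ) * ((Fintype.card (Sym2 (Fin n))).choose (4 * t) : ℝ) := by
          exact_mod_cast e1
      _ ≤ ((n : ℝ) ^ 2) ^ t * (Real.exp 1 * (n : ℝ) ^ 2 / (4 * t)) ^ (4 * t) := by
          rw [← pow_two]
          exact mul_le_mul_of_nonneg_left e2 (by positivity)
  have h4 : Pr p (fun E : Finset (Sym2 (Fin n)) => Bad4 t E) ≤
      Pr p (fun E : Finset (Sym2 (Fin n)) => ∃ q ∈ I,
        8 * t ≤ (E ∩ (q.2 ∪ q.2.image (Sym2.map (mv q.1)))).card) := by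
    apply Pr_mono h0.le h1
    rintro E ⟨c, P, hP, hcard, hle⟩
    refine ⟨(c, P), mem_filter.2 ⟨mem_product.2 ⟨mem_univ _, mem_powersetCard.2 ⟨subset_univ _, hP⟩⟩,
      hcard⟩, hle⟩
  refine h4.trans (h2.trans ?_)
  calc (I.card : ℝ) * (Real.exp 1 * p) ^ (8 * t)
      ≤ (((n : ℝ) ^ 2) ^ t * (Real.exp 1 * (n : ℝ) ^ 2 / (4 * t)) ^ (4 * t)) *
        (Real.exp 1 * p) ^ (8 * t) := by
        apply mul_le_mul_of_nonneg_right h3
        have := Real.exp_pos 1
        positivity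
    _ = _ := by
        have key : ∀ a b c : ℝ, (a ^ t * b ^ (4 * t)) * c ^ (8 * t) =
            (a * b ^ 4 * c ^ 8) ^ t := by
          intro a b c
          rw [mul_pow, mul_pow, ← pow_mul, ← pow_mul]
        exact key _ _ _

theorem bad5 {p : ℝ} (h0 : 0 ≤ p) (h1 : p ≤ 1) (hn : 0 < n) (L : ℕ) :
    Pr p (fun E : Finset (Sym2 (Fin n)) => L + 1 ≤ E.card) ≤
      Real.exp (p * 2 * (n : ℝ) ^ 2) / 2 ^ L := by
  have h3 := upper_tail (θ := 2) h0 h1 (by norm_num) (univ : Finset (Sym2 (Fin n))) (L + 1)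
  simp only [Finset.inter_univ] at h3
  rw [le_div_iff₀ (by positivity)]
  have h4 : Pr p (fun E : Finset (Sym2 (Fin n)) => L + 1 ≤ E.card) * 2 ^ L ≤
      Pr p (fun E : Finset (Sym2 (Fin n)) => L + 1 ≤ E.card) * 2 ^ (L + 1) := by
    apply mul_le_mul_of_nonneg_left (pow_le_pow_right₀ (by norm_num) (Nat.le_succ L))
    exact Finset.sum_nonneg (fun E _ => ind_nonneg h0 h1 _ E)
  refine h4.trans (h3.trans (Real.exp_le_exp.2 ?_))
  apply mul_le_mul_of_nonneg_left _ (by positivity)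
  rw [card_univ]
  exact_mod_cast card_sym2_le hn

end Pool.Agent.Helper56.Iso
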