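import Pool.Agent.Helper56.Iso.Tree

/-!
Counting: a single gate receives few of the sets `Z`.
-/

namespace Pool.Agent.Helper56.Iso

open Finset

variable {n : ℕ} {G : SimpleGraph (Fin n)} {B z0 H R M K : ℕ}

/-- the number of sets with at most `M` elements -/
def ball (n M : ℕ) : ℕ := ((univ : Finset (Finset (Fin n))).filter (fun Y => Y.card ≤ M)).card

theorem gate_count (hG : Good G B z0 H R M K) (hK : 2 * B + R + M ≤ K) (hK2 : 2 * B + 2 ≤ K)
    {f : ℕ → X n → Bool} {v z : ℕ} (𝓩 : Finset (Finset (Fin n)))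
    (h𝓩 : ∀ Z ∈ 𝓩, Z.card = z ∧ Leafy G f K univ Z v) :
    𝓩.card ≤ ball n M * B.choose z := by
  classical
  rcases 𝓩.eq_empty_or_nonempty with he | ⟨Z1, hZ1⟩
  · subst he; simp
  obtain ⟨_, U1, A1, hd1, hS1, _, hK1, _⟩ := h𝓩 Z1 hZ1
  obtain ⟨Q, hQA, hQcard, hQnb, hQσ⟩ := hG.p3 A1 hK1
  -- the vertices without a neighbour in Q \ Y
  set W : Finset (Fin n) → Finset (Fin n) := fun Y =>
    univ.filter (fun w => ∀ a ∈ Q \ Y, ¬ G.Adj w a) with hW
  have hWcard : ∀ Y : Finset (Fin n), Y.card ≤ M → (W Y).card ≤ B := by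
    intro Y hY
    by_contra hcon
    push Not at hcon
    obtain ⟨W', hW', hW'card⟩ := Finset.exists_subset_card_eq (s := W Y) (n := B) (by omega)
    have h1 : B ≤ ((Q \ Y) \ W').card := by
      have e1 := Finset.le_card_sdiff Y Q
      have e2 := Finset.le_card_sdiff W' (Q \ Y)
      omega
    obtain ⟨u, hu, w, hw, huw⟩ := hG.p1 W' ((Q \ Y) \ W') disjoint_sdiff (by omega) h1
    exact (mem_filter.1 (hW' hu)).2 w (mem_sdiff.1 hw).1 huw
  -- every Z comes from some Y
  have hex : ∀ Z ∈ 𝓩, ∃ Y : Finset (Fin n), Y.card ≤ M ∧ Z ⊆ W Y := by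
    intro Z hZ
    obtain ⟨_, U, A, hd, hS, _, hKA, hno⟩ := h𝓩 Z hZ
    obtain ⟨σ, hσ⟩ := edge_transport G hd1 hd (hS1.trans hS.symm)
      (fun a b => hG.edge_avoid (by omega) a b)
    refine ⟨Q.filter (fun v => σ v ≠ v),
      hQσ σ (fun u hu v hv huv => (hσ u hu v hv huv).1), fun w hw => ?_⟩
    refine mem_filter.2 ⟨mem_univ _, fun a ha => ?_⟩
    obtain ⟨haQ, ha2⟩ := mem_sdiff.1 ha
    have hfix : σ a = a := by
      by_contra hne
      exact ha2 (mem_filter.2 ⟨haQ, hne⟩)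
    obtain ⟨b, hb, hab⟩ := hQnb a haQ
    have haA : a ∈ A := by
      have := (hσ a (hQA haQ) b hb hab).2.1
      rwa [hfix] at this
    exact hno w hw a haA
  have hsub : 𝓩 ⊆ ((univ : Finset (Finset (Fin n))).filter (fun Y => Y.card ≤ M)).biUnion
      (fun Y => (W Y).powersetCard z) := by
    intro Z hZ
    obtain ⟨Y, hY, hZY⟩ := hex Z hZ
    rw [mem_biUnion]
    exact ⟨Y, mem_filter.2 ⟨mem_univ _, hY⟩, mem_powersetCard.2 ⟨hZY, (h𝓩 Z hZ).1⟩⟩
  refine (card_le_card hsub).trans (card_biUnion_le.trans ?_)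
  refine (Finset.sum_le_card_nsmul _ _ (B.choose z) (fun Y hY => ?_)).trans ?_
  · rw [card_powersetCard]
    exact Nat.choose_le_choose z (hWcard Y (mem_filter.1 hY).2)
  · rw [smul_eq_mul]
    exact le_refl _

theorem count (hG : Good G B z0 H R M K) {T l s : ℕ} {f : ℕ → X n → Bool}
    (hf : IsProgram n l s f) (hn : K + T + H + B ≤ n) (hl : l + 2 * B ≤ K)
    (hK : 4 * B ≤ K) (hK1 : B + H + 1 ≤ K) (hK2 : 2 * B + R + M ≤ K) (hK3 : 2 * B + 2 ≤ K)
    (hfG : ∃ v < s, f v = cnf G) :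
    T.choose z0 ≤ s * (ball n M * B.choose z0) := by
  classical
  obtain ⟨v, hv, hfv⟩ := hfG
  have hS : Same (F G ∅ univ) (f v) := by
    rw [hfv, cnf_eq_F]
    exact Same.refl _
  have hBu : B ≤ (univ : Finset (Fin n)).card := by
    rw [card_univ, Fintype.card_fin]; omega
  obtain ⟨𝓩, hc, hp⟩ := walk hG hf hn hl hK hK1 v hv T z0 ∅ univ ∅ ∅ (by simp) hS
    ⟨Subset.refl _, fun w hw => absurd (mem_univ w) hw⟩ hBu (by simp) (by simp)
  refine hc.trans ?_
  have hsub : 𝓩 ⊆ (range s).biUnion (fun v => 𝓩.filter (fun Z => Leafy G f K univ Z v)) := by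
    intro Z hZ
    obtain ⟨_, _, v', hv', hL⟩ := hp Z hZ
    rw [mem_biUnion]
    exact ⟨v', mem_range.2 hv', mem_filter.2 ⟨hZ, hL⟩⟩
  refine (card_le_card hsub).trans (card_biUnion_le.trans ?_)
  refine (Finset.sum_le_card_nsmul _ _ (ball n M * B.choose z0) (fun v' _ => ?_)).trans ?_
  · apply gate_count hG hK2 hK3
    intro Z hZ
    obtain ⟨hZ, hL⟩ := mem_filter.1 hZ
    exact ⟨(hp Z hZ).1, hL⟩
  · rw [card_range, smul_eq_mul]

/-! ### estimates -/

theorem choose_ratio {T B : ℕ} (h : B ≤ T) (z : ℕ) :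
    B.choose z * T ^ z ≤ T.choose z * B ^ z := by
  have key : ∀ z, B.descFactorial z * T ^ z ≤ T.descFactorial z * B ^ z := by
    intro z
    induction z with
    | zero => simp
    | succ z ih =>
      rw [Nat.descFactorial_succ, Nat.descFactorial_succ, pow_succ, pow_succ]
      have h1 : (B - z) * T ≤ (T - z) * B := by
        rcases le_total B z with hBz | hBz
        · simp [Nat.sub_eq_zero_of_le hBz]
        · obtain ⟨b, rfl⟩ := Nat.exists_eq_add_of_le hBz
          obtain ⟨t, rfl⟩ := Nat.exists_eq_add_of_le (hBz.trans h)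
          simp only [Nat.add_sub_cancel_left]
          have : b ≤ t := by omega
          nlinarith
      calc (B - z) * B.descFactorial z * (T ^ z * T)
          = (B.descFactorial z * T ^ z) * ((B - z) * T) := by ring
        _ ≤ (T.descFactorial z * B ^ z) * ((T - z) * B) := Nat.mul_le_mul ih h1
        _ = (T - z) * T.descFactorial z * (B ^ z * B) := by ring
  have h1 := key z
  rw [Nat.descFactorial_eq_factorial_mul_choose, Nat.descFactorial_eq_factorial_mul_choose,
    mul_assoc, mul_assoc] at h1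
  exact Nat.le_of_mul_le_mul_left h1 (Nat.factorial_pos z)

/-- `ball n M * y ^ M ≤ (1 + y) ^ n` for `0 ≤ y ≤ 1` -/
theorem ball_le {n M : ℕ} {y : ℝ} (hy : 0 ≤ y) (hy1 : y ≤ 1) :
    (ball n M : ℝ) * y ^ M ≤ (1 + y) ^ n := by
  classical
  have h1 : (1 + y) ^ n = ∑ Y : Finset (Fin n), y ^ Y.card := by
    have := Finset.prod_add (fun _ : Fin n => y) (fun _ => (1 : ℝ)) univ
    rw [Finset.prod_const, card_univ, Fintype.card_fin, add_comm y 1] at this
    rw [this, Finset.powerset_univ]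
    apply Finset.sum_congr rfl
    intro Y _
    simp
  rw [h1]
  calc (ball n M : ℝ) * y ^ M
      = ∑ _Y ∈ (univ : Finset (Finset (Fin n))).filter (fun Y => Y.card ≤ M), y ^ M := by
        rw [Finset.sum_const, nsmul_eq_mul]; rfl
    _ ≤ ∑ Y ∈ (univ : Finset (Finset (Fin n))).filter (fun Y => Y.card ≤ M), y ^ Y.card := by
        apply Finset.sum_le_sum
        intro Y hY
        exact pow_le_pow_of_le_one hy hy1 (mem_filter.1 hY).2
    _ ≤ ∑ Y : Finset (Fin n), y ^ Y.card := by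
        apply Finset.sum_le_sum_of_subset_of_nonneg (filter_subset _ _)
        intro Y _ _
        positivity

end Pool.Agent.Helper56.Iso
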