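import Mathlib

/-!
Programs with isomorphism caching, and the cover functions of graphs.
-/

namespace Pool.Agent.Helper56.Iso

open Finset

/-- Assignments to `n` Boolean variables. -/
abbrev X (n : ℕ) := Fin n → Bool

/-- `f` and `g` are the same function up to renaming variables, negating variables and
negating the output. -/
def Same {n : ℕ} (f g : X n → Bool) : Prop :=
  ∃ (π : Equiv.Perm (Fin n)) (s : X n) (c : Bool),
    ∀ x, f x = xor c (g (fun i => xor (s i) (x (π i))))

/-- The restriction of `f` to `x i = b`. -/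
def restr {n : ℕ} (f : X n → Bool) (i : Fin n) (b : Bool) : X n → Bool :=
  fun x => f (Function.update x i b)

/-- `f` depends only on the variables in `S`. -/
def DependsOn {n : ℕ} (f : X n → Bool) (S : Finset (Fin n)) : Prop :=
  ∀ x y : X n, (∀ i ∈ S, x i = y i) → f x = f y

/-- `f 0, ..., f (s-1)` is a program with isomorphism caching with free leaves on at most
`l` variables. -/
def IsProgram (n l s : ℕ) (f : ℕ → X n → Bool) : Prop :=
  ∀ v < s,
    (∃ S : Finset (Fin n), S.card ≤ l ∧ DependsOn (f v) S) ∨
    (∃ i : Fin n, ∀ b : Bool, ∃ a < v, Same (restr (f v) i b) (f a)) ∨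
    (∃ (S T : Finset (Fin n)) (g h : X n → Bool) (op : Bool → Bool → Bool),
      Disjoint S T ∧ DependsOn g S ∧ DependsOn h T ∧ (∀ x, f v x = op (g x) (h x)) ∧
      (∃ a < v, Same g (f a)) ∧ (∃ b < v, Same h (f b)))

/-- The monotone 2-CNF of a graph: every edge has an endpoint set to true. -/
noncomputable def cnf {n : ℕ} (G : SimpleGraph (Fin n)) : X n → Bool := by
  classical
  exact fun x => decide (∀ u v, G.Adj u v → x u = true ∨ x v = true)

/-! ### `Same` is an equivalence relation -/

theorem Same.refl {n : ℕ} (f : X n → Bool) : Same f f :=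
  ⟨1, fun _ => false, false, fun x => by simp⟩

theorem Same.symm {n : ℕ} {f g : X n → Bool} (h : Same f g) : Same g f := by
  obtain ⟨π, s, c, h⟩ := h
  refine ⟨π⁻¹, fun i => s (π⁻¹ i), c, fun x => ?_⟩
  rw [h]
  have : (fun i => xor (s i) ((fun i => xor (s (π⁻¹ i)) (x (π⁻¹ i))) (π i))) = x := by
    funext i
    simp
  rw [this]
  simp

theorem Same.trans {n : ℕ} {f g h : X n → Bool} (h1 : Same f g) (h2 : Same g h) :
    Same f h := by
  obtain ⟨π, s, c, h1⟩ := h1
  obtain ⟨ρ, t, d, h2⟩ := h2
  refine ⟨π * ρ, fun i => xor (t i) (s (ρ i)), xor c d, fun x => ?_⟩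
  rw [h1, h2]
  rw [Bool.xor_assoc]
  congr 2
  congr 1
  funext i
  simp

theorem Same.restr {n : ℕ} {f g : X n → Bool} (h : Same f g) (i : Fin n) :
    ∃ j : Fin n, ∀ b, ∃ b', Same (restr f j b) (restr g i b') := by
  obtain ⟨π, s, c, h⟩ := h
  refine ⟨π i, fun b => ⟨xor (s i) b, π, s, c, fun x => ?_⟩⟩
  unfold Iso.restr
  rw [h]
  congr 2
  funext k
  by_cases hk : k = i
  · subst hk; simp
  · have : π k ≠ π i := fun h => hk (π.injective h)
    simp [Function.update_of_ne hk, Function.update_of_ne this]

/-! ### The functions `F U A` -/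

variable {n : ℕ} (G : SimpleGraph (Fin n))

/-- All variables of `U` are true, and every edge inside `A` is covered. -/
def FP (U A : Finset (Fin n)) (x : X n) : Prop :=
  (∀ u ∈ U, x u = true) ∧ ∀ u ∈ A, ∀ v ∈ A, G.Adj u v → x u = true ∨ x v = true

open Classical in
noncomputable def F (U A : Finset (Fin n)) : X n → Bool := fun x => decide (FP G U A x)

theorem F_eq_true {U A : Finset (Fin n)} {x : X n} : F G U A x = true ↔ FP G U A x := by
  unfold F; simp

theorem F_eq_false {U A : Finset (Fin n)} {x : X n} : F G U A x = false ↔ ¬ FP G U A x := by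
  unfold F; simp

theorem cnf_eq_F : cnf G = F G ∅ univ := by
  funext x
  unfold cnf F FP
  simp

theorem F_ext {U A U' A' : Finset (Fin n)} {x y : X n} (h : FP G U A x ↔ FP G U' A' y) :
    F G U A x = F G U' A' y := by
  unfold F; simp [h]

/-- the assignment that is false exactly on `D` -/
def zer (D : Finset (Fin n)) : X n := fun i => decide (i ∉ D)

theorem zer_eq_true {D : Finset (Fin n)} {i : Fin n} : zer D i = true ↔ i ∉ D := by
  unfold zer; simp

theorem zer_eq_false {D : Finset (Fin n)} {i : Fin n} : zer D i = false ↔ i ∈ D := by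
  unfold zer; simp

theorem restr_true (U A : Finset (Fin n)) (i : Fin n) :
    restr (F G U A) i true = F G (U.erase i) (A.erase i) := by
  funext x
  unfold restr
  apply F_ext
  unfold FP
  constructor
  · rintro ⟨h1, h2⟩
    refine ⟨fun u hu => ?_, fun u hu v hv huv => ?_⟩
    · have hu' := mem_erase.1 hu
      have := h1 u hu'.2
      rwa [Function.update_of_ne hu'.1] at this
    · have hu' := mem_erase.1 hu
      have hv' := mem_erase.1 hv
      have := h2 u hu'.2 v hv'.2 huv
      rwa [Function.update_of_ne hu'.1, Function.update_of_ne hv'.1] at this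
  · rintro ⟨h1, h2⟩
    refine ⟨fun u hu => ?_, fun u hu v hv huv => ?_⟩
    · by_cases hui : u = i
      · subst hui; simp
      · rw [Function.update_of_ne hui]
        exact h1 u (mem_erase.2 ⟨hui, hu⟩)
    · by_cases hui : u = i
      · subst hui; simp
      · by_cases hvi : v = i
        · subst hvi; simp
        · rw [Function.update_of_ne hui, Function.update_of_ne hvi]
          exact h2 u (mem_erase.2 ⟨hui, hu⟩) v (mem_erase.2 ⟨hvi, hv⟩) huv

open Classical in
/-- neighbours of `i` in `A` -/
noncomputable def nb (A : Finset (Fin n)) (i : Fin n) : Finset (Fin n) :=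
  A.filter (fun j => G.Adj i j)

theorem mem_nb {A : Finset (Fin n)} {i j : Fin n} : j ∈ nb G A i ↔ j ∈ A ∧ G.Adj i j := by
  unfold nb; simp

theorem restr_false {U A : Finset (Fin n)} {i : Fin n} (hiA : i ∈ A) (hUA : Disjoint U A) :
    restr (F G U A) i false = F G (U ∪ nb G A i) ((A.erase i) \ nb G A i) := by
  funext x
  unfold restr
  apply F_ext
  have hiU : i ∉ U := fun h => (Finset.disjoint_left.1 hUA h hiA)
  unfold FP
  constructor
  · rintro ⟨h1, h2⟩
    refine ⟨fun u hu => ?_, fun u hu v hv huv => ?_⟩
    · rcases mem_union.1 hu with hu | hu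
      · have hne : u ≠ i := fun h => hiU (h ▸ hu)
        have := h1 u hu
        rwa [Function.update_of_ne hne] at this
      · obtain ⟨huA, hiu⟩ := (mem_nb G).1 hu
        have hne : u ≠ i := fun h => by subst h; exact G.irrefl hiu
        have := h2 i hiA u huA hiu
        rw [Function.update_self, Function.update_of_ne hne] at this
        simpa using this
    · obtain ⟨hu', _⟩ := mem_sdiff.1 hu
      obtain ⟨hv', _⟩ := mem_sdiff.1 hv
      have hu' := mem_erase.1 hu'
      have hv' := mem_erase.1 hv'
      have := h2 u hu'.2 v hv'.2 huv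
      rwa [Function.update_of_ne hu'.1, Function.update_of_ne hv'.1] at this
  · rintro ⟨h1, h2⟩
    refine ⟨fun u hu => ?_, fun u hu v hv huv => ?_⟩
    · have hne : u ≠ i := fun h => hiU (h ▸ hu)
      rw [Function.update_of_ne hne]
      exact h1 u (mem_union_left _ hu)
    · by_cases hui : u = i
      · subst hui
        have hne : v ≠ u := huv.ne'
        right
        rw [Function.update_of_ne hne]
        exact h1 v (mem_union_right _ ((mem_nb G).2 ⟨hv, huv⟩))
      · by_cases hvi : v = i
        · subst hvi
          left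
          rw [Function.update_of_ne hui]
          exact h1 u (mem_union_right _ ((mem_nb G).2 ⟨hu, huv.symm⟩))
        · rw [Function.update_of_ne hui, Function.update_of_ne hvi]
          by_cases hun : u ∈ nb G A i
          · left; exact h1 u (mem_union_right _ hun)
          · by_cases hvn : v ∈ nb G A i
            · right; exact h1 v (mem_union_right _ hvn)
            · exact h2 u (mem_sdiff.2 ⟨mem_erase.2 ⟨hui, hu⟩, hun⟩) v
                (mem_sdiff.2 ⟨mem_erase.2 ⟨hvi, hv⟩, hvn⟩) huv

theorem F_zer_pair {U A : Finset (Fin n)} {D : Finset (Fin n)} {u v : Fin n} (hu : u ∈ A)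
    (hv : v ∈ A) (huD : u ∈ D) (hvD : v ∈ D) (huv : G.Adj u v) : F G U A (zer D) = false := by
  rw [F_eq_false]
  rintro ⟨_, h2⟩
  rcases h2 u hu v hv huv with h | h
  · exact (zer_eq_true.1 h) huD
  · exact (zer_eq_true.1 h) hvD

theorem F_zer_one {U A : Finset (Fin n)} {u : Fin n} (hu : u ∉ U) :
    F G U A (zer {u}) = true := by
  rw [F_eq_true]
  refine ⟨fun w hw => zer_eq_true.2 ?_, fun a _ b _ hab => ?_⟩
  · rw [Finset.mem_singleton]
    exact fun h => hu (h ▸ hw)
  · by_cases hau : a = u
    · right
      rw [zer_eq_true, Finset.mem_singleton]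
      intro h
      subst h; subst hau
      exact G.irrefl hab
    · left
      rw [zer_eq_true, Finset.mem_singleton]
      exact hau

theorem F_zer_empty {U A : Finset (Fin n)} : F G U A (zer ∅) = true := by
  rw [F_eq_true]
  exact ⟨fun w _ => zer_eq_true.2 (by simp), fun a _ b _ _ => Or.inl (zer_eq_true.2 (by simp))⟩

/-- A leaf cannot compute `F U A` if an edge of `A` avoids its variables. -/
theorem leaf_absurd {U A S : Finset (Fin n)} (hUA : Disjoint U A)
    {u v : Fin n} (hu : u ∈ A) (hv : v ∈ A) (hvS : v ∉ S) (huv : G.Adj u v)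
    (hdep : DependsOn (F G U A) S) : False := by
  have h1 : F G U A (zer {u}) = true := F_zer_one G (Finset.disjoint_right.1 hUA hu)
  have h2 : F G U A (zer {u, v}) = false :=
    F_zer_pair G (D := {u, v}) hu hv (by simp) (by simp) huv
  have h3 : F G U A (zer {u}) = F G U A (zer {u, v}) := by
    apply hdep
    intro i hi
    have : i ≠ v := fun h => hvS (h ▸ hi)
    unfold zer
    simp [this]
  rw [h1, h2] at h3
  exact absurd h3 (by simp)

theorem DependsOn.same {f g : X n → Bool} {S : Finset (Fin n)} (h : Same f g)
    (hg : DependsOn g S) : ∃ S' : Finset (Fin n), S'.card = S.card ∧ DependsOn f S' := by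
  obtain ⟨π, s, c, h⟩ := h
  refine ⟨S.map π.toEmbedding, by simp, fun x y hxy => ?_⟩
  rw [h, h]
  congr 1
  apply hg
  intro i hi
  have := hxy (π i) (by simpa using hi)
  rw [this]

/-- the decomposition lemma -/
theorem decomp {U A S T : Finset (Fin n)} (hUA : Disjoint U A) (hST : Disjoint S T)
    {g h : X n → Bool} {op : Bool → Bool → Bool} (hg : DependsOn g S) (hh : DependsOn h T)
    (hF : ∀ x, F G U A x = op (g x) (h x))
    {a b : Fin n} (ha : a ∈ A \ T) (hb : b ∈ A \ T) (hab : G.Adj a b) :
    Same (F G (U \ T) (A \ T)) g ∧ ∀ u ∈ A \ T, ∀ v ∈ A ∩ T, ¬ G.Adj u v := by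
  classical
  have key : ∀ x, F G (U \ T) (A \ T) x = op (g x) (h (zer ∅)) := by
    intro x
    set y : X n := fun i => if i ∈ T then true else x i with hy
    have h1 : F G (U \ T) (A \ T) x = F G U A y := by
      apply F_ext
      unfold FP
      constructor
      · rintro ⟨h1, h2⟩
        refine ⟨fun u hu => ?_, fun u hu v hv huv => ?_⟩
        · by_cases huT : u ∈ T
          · simp [hy, huT]
          · simp only [hy, huT, if_false]
            exact h1 u (mem_sdiff.2 ⟨hu, huT⟩)
        · by_cases huT : u ∈ T
          · left; simp [hy, huT]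
          · by_cases hvT : v ∈ T
            · right; simp [hy, hvT]
            · simp only [hy, huT, hvT, if_false]
              exact h2 u (mem_sdiff.2 ⟨hu, huT⟩) v (mem_sdiff.2 ⟨hv, hvT⟩) huv
      · rintro ⟨h1, h2⟩
        refine ⟨fun u hu => ?_, fun u hu v hv huv => ?_⟩
        · obtain ⟨hu1, hu2⟩ := mem_sdiff.1 hu
          have := h1 u hu1
          simpa only [hy, hu2, if_false] using this
        · obtain ⟨hu1, hu2⟩ := mem_sdiff.1 hu
          obtain ⟨hv1, hv2⟩ := mem_sdiff.1 hv
          have := h2 u hu1 v hv1 huv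
          simpa only [hy, hu2, hv2, if_false] using this
    rw [h1, hF y]
    congr 1
    · apply hg
      intro i hi
      have : i ∉ T := Finset.disjoint_left.1 hST hi
      simp [hy, this]
    · apply hh
      intro i hi
      simp [hy, hi, zer]
  obtain ⟨ha1, ha2⟩ := mem_sdiff.1 ha
  obtain ⟨hb1, hb2⟩ := mem_sdiff.1 hb
  have h0 : op (g (zer ∅)) (h (zer ∅)) = true := by rw [← hF]; exact F_zer_empty G
  have h1 : op (g (zer {a, b})) (h (zer ∅)) = false := by
    rw [← key]
    exact F_zer_pair G (D := {a, b}) ha hb (by simp) (by simp) hab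
  have hinj : ∀ c d : Bool, op c (h (zer ∅)) = op d (h (zer ∅)) → c = d := by
    have hne : g (zer ∅) ≠ g (zer {a, b}) := by
      intro h'
      rw [h', h1] at h0
      exact absurd h0 (by simp)
    intro c d hcd
    revert hne h0 h1
    generalize g (zer ∅) = x
    generalize g (zer {a, b}) = y
    intro hne h0 h1
    cases c <;> cases d <;> cases x <;> cases y <;> simp_all
  constructor
  · refine ⟨1, fun _ => false, op false (h (zer ∅)), fun x => ?_⟩
    have : (fun i => xor ((fun _ => false : X n) i) (x ((1 : Equiv.Perm (Fin n)) i))) = x := by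
      funext i; simp
    rw [this, key]
    have h2 := hinj false true
    revert h2
    generalize g x = z
    generalize h (zer ∅) = w
    intro h2
    cases z <;> cases hf : op false w <;> cases ht : op true w <;> simp_all
  · intro u hu v hv huv
    obtain ⟨hu1, hu2⟩ := mem_sdiff.1 hu
    obtain ⟨hv1, hv2⟩ := mem_inter.1 hv
    have hvS : v ∉ S := Finset.disjoint_right.1 hST hv2
    have huU : u ∉ U := Finset.disjoint_right.1 hUA hu1
    have hvU : v ∉ U := Finset.disjoint_right.1 hUA hv1
    have e1 : op (g (zer {u})) (h (zer {u})) = true := by rw [← hF]; exact F_zer_one G huU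
    have e2 : op (g (zer {v})) (h (zer {v})) = true := by rw [← hF]; exact F_zer_one G hvU
    have e3 : op (g (zer {u, v})) (h (zer {u, v})) = false := by
      rw [← hF]
      exact F_zer_pair G (D := {u, v}) hu1 hv1 (by simp) (by simp) huv
    have e4 : h (zer {u}) = h (zer ∅) := by
      apply hh
      intro i hi
      have : i ≠ u := fun h => hu2 (h ▸ hi)
      simp [zer, this]
    have e5 : g (zer {v}) = g (zer ∅) := by
      apply hg
      intro i hi
      have : i ≠ v := fun h => hvS (h ▸ hi)
      simp [zer, this]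
    have e6 : g (zer {u, v}) = g (zer {u}) := by
      apply hg
      intro i hi
      have : i ≠ v := fun h => hvS (h ▸ hi)
      simp [zer, this]
    have e7 : h (zer {u, v}) = h (zer {v}) := by
      apply hh
      intro i hi
      have : i ≠ u := fun h => hu2 (h ▸ hi)
      simp [zer, this]
    rw [e4] at e1
    have e8 : g (zer {u}) = g (zer ∅) := hinj _ _ (by rw [e1, h0])
    rw [e6, e7, e8, ← e5, e2] at e3
    exact absurd e3 (by simp)

/-- relevant variables of `F U A` -/
theorem relevant_flip {U1 A1 U A : Finset (Fin n)} {π : Equiv.Perm (Fin n)}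
    {s : X n} {c : Bool} (h : ∀ x, F G U1 A1 x = xor c (F G U A (fun i => xor (s i) (x (π i)))))
    {i : Fin n} {y : X n} (h0 : F G U A (Function.update y i false) = false)
    (h1 : F G U A (Function.update y i true) = true) : s i = c := by
  have mono : ∀ x x' : X n, F G U1 A1 x = true → (∀ j, x j = true → x' j = true) →
      F G U1 A1 x' = true := by
    intro x x' hF hx
    rw [F_eq_true] at hF ⊢
    exact ⟨fun u hu => hx u (hF.1 u hu), fun u hu v hv huv => (hF.2 u hu v hv huv).imp
      (hx u) (hx v)⟩
  -- x corresponding to y with value b at i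
  have e : ∀ b, F G U1 A1 (fun j => xor (s (π⁻¹ j)) (Function.update y i b (π⁻¹ j))) =
      xor c (F G U A (Function.update y i b)) := by
    intro b
    rw [h]
    congr 2
    funext j
    simp
  have e0 := e false
  have e1 := e true
  rw [h0] at e0
  rw [h1] at e1
  cases hs : s i <;> cases hc : c
  · rfl
  · -- s i = false, c = true: F1 at (i false) = true, at (i true) = false
    exfalso
    rw [hc] at e0 e1
    have := mono (fun j => xor (s (π⁻¹ j)) (Function.update y i false (π⁻¹ j)))
      (fun j => xor (s (π⁻¹ j)) (Function.update y i true (π⁻¹ j))) (by rw [e0]; rfl) ?_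
    · rw [this] at e1
      simp at e1
    · intro j hj
      by_cases hj' : π⁻¹ j = i
      · rw [hj', hs]; simp
      · rw [Function.update_of_ne hj'] at hj ⊢; exact hj
  · exfalso
    rw [hc] at e0 e1
    have := mono (fun j => xor (s (π⁻¹ j)) (Function.update y i true (π⁻¹ j)))
      (fun j => xor (s (π⁻¹ j)) (Function.update y i false (π⁻¹ j))) (by rw [e1]; rfl) ?_
    · rw [this] at e0
      simp at e0
    · intro j hj
      by_cases hj' : π⁻¹ j = i
      · rw [hj', hs] ; simp
      · rw [Function.update_of_ne hj'] at hj ⊢; exact hj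
  · rfl

/-- edges are mapped to edges -/
theorem edge_transport {U1 A1 U A : Finset (Fin n)} (h1 : Disjoint U1 A1) (h2 : Disjoint U A)
    (hS : Same (F G U1 A1) (F G U A))
    (hedge : ∀ a b : Fin n, ∃ u ∈ A, ∃ v ∈ A, G.Adj u v ∧ u ≠ a ∧ u ≠ b ∧ v ≠ a ∧ v ≠ b) :
    ∃ σ : Equiv.Perm (Fin n), ∀ u ∈ A1, ∀ v ∈ A1, G.Adj u v →
      G.Adj (σ u) (σ v) ∧ σ u ∈ A ∧ σ v ∈ A := by
  classical
  obtain ⟨π, s, c, h⟩ := hS
  -- relevant variables
  have relA : ∀ a ∈ A, ∀ b ∈ A, G.Adj a b → s a = c := by
    intro a ha b hb hab
    apply relevant_flip G h (i := a) (y := zer {b})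
    · have : Function.update (zer {b}) a false = zer {a, b} := by
        funext j
        by_cases hj : j = a
        · subst hj; simp [zer]
        · rw [Function.update_of_ne hj]; simp [zer, hj]
      rw [this]
      exact F_zer_pair G ha hb (by simp) (by simp) hab
    · have : Function.update (zer {b}) a true = zer {b} := by
        funext j
        by_cases hj : j = a
        · subst hj; simp [zer, hab.ne]
        · rw [Function.update_of_ne hj]
      rw [this]
      exact F_zer_one G (Finset.disjoint_right.1 h2 hb)
  have relU : ∀ w ∈ U, s w = c := by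
    intro w hw
    apply relevant_flip G h (i := w) (y := zer ∅)
    · rw [F_eq_false]
      rintro ⟨h', _⟩
      have := h' w hw
      simp at this
    · have : Function.update (zer ∅) w true = (zer ∅ : X n) := by
        funext j
        by_cases hj : j = w
        · subst hj; simp [zer]
        · rw [Function.update_of_ne hj]
      rw [this]
      exact F_zer_empty G
  -- c = false as soon as A1 has an edge
  refine ⟨π⁻¹, fun u hu v hv huv => ?_⟩
  have huU : u ∉ U1 := Finset.disjoint_right.1 h1 hu
  have hvU : v ∉ U1 := Finset.disjoint_right.1 h1 hv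
  have hF0 : F G U1 A1 (zer {u, v}) = false :=
    F_zer_pair G (D := {u, v}) hu hv (by simp) (by simp) huv
  have hc : c = false := by
    by_contra hc
    have hc : c = true := by simpa using hc
    obtain ⟨a, ha, b, hb, hab, n1, n2, n3, n4⟩ := hedge (π⁻¹ u) (π⁻¹ v)
    have e := h (zer {u, v})
    rw [hF0, hc] at e
    have e' : F G U A (fun i => xor (s i) (zer {u, v} (π i))) = false := by
      rw [F_eq_false]
      rintro ⟨_, h'⟩
      have ea : s a = true := by rw [relA a ha b hb hab, hc]
      have eb : s b = true := by rw [relA b hb a ha hab.symm, hc]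
      have pa : π a ≠ u ∧ π a ≠ v :=
        ⟨fun h => n1 (by rw [← h]; simp), fun h => n2 (by rw [← h]; simp)⟩
      have pb : π b ≠ u ∧ π b ≠ v :=
        ⟨fun h => n3 (by rw [← h]; simp), fun h => n4 (by rw [← h]; simp)⟩
      rcases h' a ha b hb hab with h' | h'
      · simp [ea, zer, pa.1, pa.2] at h'
      · simp [eb, zer, pb.1, pb.2] at h'
    rw [e'] at e
    simp at e
  subst hc
  have e := h (zer {u, v})
  rw [hF0] at e
  have e : F G U A (fun i => xor (s i) (zer {u, v} (π i))) = false := by simpa using e.symm
  rw [F_eq_false] at e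
  unfold FP at e
  have : (∃ w ∈ U, xor (s w) (zer {u, v} (π w)) = false) ∨
      ∃ a ∈ A, ∃ b ∈ A, G.Adj a b ∧ xor (s a) (zer {u, v} (π a)) = false ∧
        xor (s b) (zer {u, v} (π b)) = false := by
    by_contra hcon
    push Not at hcon
    apply e
    refine ⟨fun w hw => by simpa using hcon.1 w hw, fun a ha b hb hab => ?_⟩
    by_cases ht : xor (s a) (zer {u, v} (π a)) = false
    · right
      simpa using hcon.2 a ha b hb hab ht
    · left
      simpa using ht
  rcases this with ⟨w, hw, hw'⟩ | ⟨a, ha, b, hb, hab, ha', hb'⟩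
  · exfalso
    rw [relU w hw] at hw'
    have hw2 : π w = u ∨ π w = v := by
      simpa [zer, imp_iff_not_or, or_comm] using hw'
    have main : ∀ t, t ∉ U1 → π w = t → False := by
      intro t ht hpt
      have e1 := h (zer {t})
      rw [F_zer_one G ht] at e1
      have e2 : F G U A (fun i => xor (s i) (zer {t} (π i))) = false := by
        rw [F_eq_false]
        rintro ⟨h', _⟩
        have := h' w hw
        beta_reduce at this
        rw [relU w hw, hpt] at this
        simp [zer] at this
      rw [e2] at e1
      simp at e1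
    rcases hw2 with hw2 | hw2
    · exact main u huU hw2
    · exact main v hvU hw2
  · have sa : s a = false := relA a ha b hb hab
    have sb : s b = false := relA b hb a ha hab.symm
    rw [sa] at ha'
    rw [sb] at hb'
    have ha2 : π a = u ∨ π a = v := by
      simpa [zer, imp_iff_not_or, or_comm] using ha'
    have hb2 : π b = u ∨ π b = v := by
      simpa [zer, imp_iff_not_or, or_comm] using hb'
    have hne : π a ≠ π b := fun h => hab.ne (π.injective h)
    rcases ha2 with ha2 | ha2 <;> rcases hb2 with hb2 | hb2
    · exact absurd (ha2.trans hb2.symm) hne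
    · have e1 : π⁻¹ u = a := by rw [← ha2]; simp
      have e2 : π⁻¹ v = b := by rw [← hb2]; simp
      rw [e1, e2]
      exact ⟨hab, ha, hb⟩
    · have e1 : π⁻¹ v = a := by rw [← ha2]; simp
      have e2 : π⁻¹ u = b := by rw [← hb2]; simp
      rw [e1, e2]
      exact ⟨hab.symm, hb, ha⟩
    · exact absurd (ha2.trans hb2.symm) hne

end Pool.Agent.Helper56.Iso
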