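import Pool.Agent.Helper56.Iso.Tree

/-!
From the edge statistics of a graph to the properties `Good`.
-/

namespace Pool.Agent.Helper56.Iso

open Finset

variable {n : ℕ}

/-- the graph with edge set `E` -/
def gr (E : Finset (Sym2 (Fin n))) : SimpleGraph (Fin n) := SimpleGraph.fromEdgeSet (E : Set _)

theorem gr_adj {E : Finset (Sym2 (Fin n))} {u v : Fin n} :
    (gr E).Adj u v ↔ s(u, v) ∈ E ∧ u ≠ v := by
  unfold gr
  rw [SimpleGraph.fromEdgeSet_adj]
  simp

/-- the pairs with one element in `S` and the other one in `T` -/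
def cross (S T : Finset (Fin n)) : Finset (Sym2 (Fin n)) :=
  (S ×ˢ T).image (fun q => s(q.1, q.2))

theorem mem_cross {S T : Finset (Fin n)} {e : Sym2 (Fin n)} :
    e ∈ cross S T ↔ ∃ u ∈ S, ∃ v ∈ T, s(u, v) = e := by
  unfold cross
  simp only [mem_image, mem_product, Prod.exists]
  constructor
  · rintro ⟨a, b, ⟨ha, hb⟩, h⟩; exact ⟨a, ha, b, hb, h⟩
  · rintro ⟨a, ha, b, hb, h⟩; exact ⟨a, b, ⟨ha, hb⟩, h⟩

theorem card_cross_le (S T : Finset (Fin n)) : (cross S T).card ≤ S.card * T.card := by
  unfold cross
  exact card_image_le.trans (by rw [card_product])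

theorem card_cross {S T : Finset (Fin n)} (h : Disjoint S T) :
    (cross S T).card = S.card * T.card := by
  unfold cross
  rw [card_image_of_injOn, card_product]
  rintro ⟨a, b⟩ hab ⟨c, d⟩ hcd heq
  simp only [coe_product, Set.mem_prod, mem_coe] at hab hcd
  simp only [Sym2.eq_iff] at heq
  rcases heq with ⟨h1, h2⟩ | ⟨h1, h2⟩
  · rw [h1, h2]
  · exact absurd hcd.2 (fun h' => Finset.disjoint_left.1 h hab.1 (h1 ▸ h'))

/-- a third of a fixed-point-free set is disjoint from its image -/
theorem third {α : Type*} [DecidableEq α] (ρ : α → α) (hρ : Function.Injective ρ)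
    (P1 : Finset α) (hfix : ∀ e ∈ P1, ρ e ≠ e) :
    ∃ P ⊆ P1, Disjoint P (P.image ρ) ∧ P1.card ≤ 3 * P.card := by
  have hne : (P1.powerset.filter (fun P => Disjoint P (P.image ρ))).Nonempty :=
    ⟨∅, by simp⟩
  obtain ⟨P, hP, hmax⟩ := Finset.exists_max_image _ (fun P : Finset α => P.card) hne
  obtain ⟨hP1, hP2⟩ := mem_filter.1 hP
  rw [mem_powerset] at hP1
  refine ⟨P, hP1, hP2, ?_⟩
  have hsub : P1 ⊆ P ∪ P.image ρ ∪ P1.filter (fun e => ρ e ∈ P) := by
    intro e he
    by_contra hcon
    simp only [mem_union, not_or, mem_filter, not_and] at hcon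
    obtain ⟨⟨h1, h2⟩, h3⟩ := hcon
    have h3 := h3 he
    have hins : insert e P ∈ P1.powerset.filter (fun P => Disjoint P (P.image ρ)) := by
      rw [mem_filter, mem_powerset]
      refine ⟨insert_subset he hP1, ?_⟩
      rw [Finset.disjoint_left]
      intro x hx hx2
      rw [mem_image] at hx2
      obtain ⟨y, hy, rfl⟩ := hx2
      rcases mem_insert.1 hx with hx | hx <;> rcases mem_insert.1 hy with hy | hy
      · rw [hy] at hx; exact hfix e he hx
      · exact h2 (mem_image.2 ⟨y, hy, hx⟩)
      · rw [hy] at hx; exact h3 hx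
      · exact Finset.disjoint_left.1 hP2 hx (mem_image_of_mem _ hy)
    have := hmax _ hins
    simp only [card_insert_of_notMem h1] at this
    omega
  have h4 : (P1.filter (fun e => ρ e ∈ P)).card ≤ P.card := by
    apply Finset.card_le_card_of_injOn ρ
    · intro e he
      exact (mem_filter.1 he).2
    · exact hρ.injOn
  have h5 : (P.image ρ).card ≤ P.card := card_image_le
  have h6 := card_le_card hsub
  have h7 := card_union_le (P ∪ P.image ρ) (P1.filter (fun e => ρ e ∈ P))
  have h8 := card_union_le P (P.image ρ)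
  omega

/-- the map that sends the first coordinates of a list to the second ones -/
noncomputable def mv {t : ℕ} (c : Fin t → Fin n × Fin n) : Fin n → Fin n := by
  classical
  exact fun v => if h : ∃ i, (c i).1 = v then (c h.choose).2 else v

theorem mv_eq {t : ℕ} (e : Fin t → Fin n) (σ : Fin n → Fin n) {v : Fin n}
    (h : σ v ≠ v → v ∈ Set.range e) : mv (fun i => (e i, σ (e i))) v = σ v := by
  classical
  unfold mv
  by_cases hv : ∃ i, (e i, σ (e i)).1 = v
  · rw [dif_pos hv]
    have := hv.choose_spec
    simp only at this ⊢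
    rw [this]
  · rw [dif_neg hv]
    by_contra hne
    obtain ⟨i, hi⟩ := h (fun h' => hne h'.symm)
    exact hv ⟨i, hi⟩

theorem exists_enum {t : ℕ} (hn : 0 < n) (S : Finset (Fin n)) (h : S.card ≤ t) :
    ∃ e : Fin t → Fin n, ∀ v ∈ S, v ∈ Set.range e := by
  classical
  have h1 : Fintype.card S ≤ Fintype.card (Fin t) := by
    rw [Fintype.card_coe, Fintype.card_fin]; exact h
  obtain ⟨emb⟩ := Function.Embedding.nonempty_of_card_le h1
  refine ⟨Function.extend emb (fun x => (x : Fin n)) (fun _ => ⟨0, hn⟩), fun v hv => ?_⟩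
  exact ⟨emb ⟨v, hv⟩, by rw [emb.injective.extend_apply]⟩

/-- edge statistics -/
structure Stat (E : Finset (Sym2 (Fin n))) (B z0 H R M K' δ : ℕ) : Prop where
  e1 : ∀ S T : Finset (Fin n), Disjoint S T → B ≤ S.card → B ≤ T.card →
    ¬ (E ∩ cross S T).card ≤ 0
  e2 : ∀ Z : Finset (Fin n), Z.card ≤ z0 → ¬ H + 1 ≤ (E ∩ cross Z univ).card
  e3 : ∀ Y A : Finset (Fin n), Disjoint Y A → Y.card = R → K' ≤ A.card →
    ¬ (E ∩ cross Y A).card ≤ δ * R
  e4 : ∀ t, M + 1 + R ≤ t → t ≤ n + R → ∀ (c : Fin t → Fin n × Fin n)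
    (P : Finset (Sym2 (Fin n))), P.card = 4 * t →
    (P ∪ P.image (Sym2.map (mv c))).card = 8 * t →
    ¬ 8 * t ≤ (E ∩ (P ∪ P.image (Sym2.map (mv c)))).card

theorem Stat.good {E : Finset (Sym2 (Fin n))} {B z0 H R M K K' δ : ℕ}
    (h : Stat E B z0 H R M K' δ) (hKR : K' + R ≤ K) (hn : 0 < n)
    (hδ : 24 * R + 26 * (M + 1) ≤ (δ + 1) * (M + 1)) :
    Good (gr E) B z0 H R M K := by
  classical
  refine ⟨?_, ?_, ?_⟩
  · -- p1
    intro S T hST hS hT
    have := h.e1 S T hST hS hT
    push Not at this
    obtain ⟨e, he⟩ := Finset.card_pos.1 this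
    obtain ⟨heE, he2⟩ := mem_inter.1 he
    obtain ⟨u, hu, v, hv, rfl⟩ := mem_cross.1 he2
    refine ⟨u, hu, v, hv, gr_adj.2 ⟨heE, ?_⟩⟩
    rintro rfl
    exact Finset.disjoint_left.1 hST hu hv
  · -- p2
    intro Z N hZ hZN hN
    by_contra hcon
    push Not at hcon
    apply h.e2 Z hZ
    refine (Nat.succ_le_of_lt hcon).trans ?_
    choose! g hg using hN
    apply Finset.card_le_card_of_injOn (fun y => s(g y, y))
    · intro y hy
      have hy' := hg y hy
      rw [mem_coe, mem_inter, mem_cross]
      exact ⟨(gr_adj.1 hy'.2).1, g y, hy'.1, y, mem_univ _, rfl⟩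
    · intro y hy y' hy' heq
      simp only [Sym2.eq_iff] at heq
      rcases heq with ⟨_, h2⟩ | ⟨h1, h2⟩
      · exact h2
      · exfalso
        have h3 : y ∈ Z := by rw [h2]; exact (hg y' hy').1
        exact Finset.disjoint_left.1 hZN h3 hy
  · -- p3
    intro A hA
    set Q := A.filter (fun v => δ < (nb (gr E) A v).card) with hQ
    have hQA : Q ⊆ A := filter_subset _ _
    have hlow : A.card ≤ Q.card + R := by
      by_contra hcon
      push Not at hcon
      have h1 : R ≤ (A \ Q).card := by
        rw [card_sdiff_of_subset hQA]; omega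
      obtain ⟨Y, hY, hYR⟩ := Finset.exists_subset_card_eq h1
      have hYA : Y ⊆ A := hY.trans sdiff_subset
      apply h.e3 Y (A \ Y) disjoint_sdiff hYR (by rw [card_sdiff_of_subset hYA]; omega)
      have hsub : E ∩ cross Y (A \ Y) ⊆
          Y.biUnion (fun y => (nb (gr E) A y).image (fun a => s(y, a))) := by
        intro e he
        obtain ⟨heE, he2⟩ := mem_inter.1 he
        obtain ⟨u, hu, v, hv, rfl⟩ := mem_cross.1 he2
        obtain ⟨hv1, hv2⟩ := mem_sdiff.1 hv
        rw [mem_biUnion]
        refine ⟨u, hu, mem_image.2 ⟨v, (mem_nb _).2 ⟨hv1, gr_adj.2 ⟨heE, ?_⟩⟩, rfl⟩⟩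
        rintro rfl
        exact hv2 hu
      refine (card_le_card hsub).trans (card_biUnion_le.trans ?_)
      refine (Finset.sum_le_card_nsmul _ _ δ (fun y hy => ?_)).trans ?_
      · refine card_image_le.trans ?_
        by_contra hcon2
        push Not at hcon2
        exact (mem_sdiff.1 (hY hy)).2 (mem_filter.2 ⟨hYA hy, hcon2⟩)
      · rw [smul_eq_mul, hYR, mul_comm]
    refine ⟨Q, hQA, hlow, ?_, ?_⟩
    · intro v hv
      have : 0 < (nb (gr E) A v).card := lt_of_le_of_lt (Nat.zero_le _) (mem_filter.1 hv).2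
      obtain ⟨w, hw⟩ := Finset.card_pos.1 this
      exact ⟨w, ((mem_nb _).1 hw).1, ((mem_nb _).1 hw).2⟩
    · intro σ hσ
      by_contra hcon
      push Not at hcon
      set S := Q.filter (fun v => σ v ≠ v) with hS
      have hSQ : S ⊆ Q := filter_subset _ _
      have hSA : S ⊆ A := hSQ.trans hQA
      set t := S.card + R with ht
      have hSn : S.card ≤ n := by
        have := card_le_univ S
        rwa [Fintype.card_fin] at this
      -- moved vertices
      have hmoved : (A.filter (fun v => σ v ≠ v)).card ≤ t := by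
        have h1 : A.filter (fun v => σ v ≠ v) ⊆ S ∪ (A \ Q) := by
          intro v hv
          obtain ⟨hv1, hv2⟩ := mem_filter.1 hv
          by_cases hvQ : v ∈ Q
          · exact mem_union_left _ (mem_filter.2 ⟨hvQ, hv2⟩)
          · exact mem_union_right _ (mem_sdiff.2 ⟨hv1, hvQ⟩)
        refine (card_le_card h1).trans ((card_union_le _ _).trans ?_)
        rw [card_sdiff_of_subset hQA]
        omega
      obtain ⟨en, hen⟩ := exists_enum hn _ hmoved
      set c : Fin t → Fin n × Fin n := fun i => (en i, σ (en i)) with hc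
      have hmv : ∀ v ∈ A, mv c v = σ v := by
        intro v hv
        exact mv_eq en σ (fun hne => hen v (mem_filter.2 ⟨hv, hne⟩))
      -- the pairs
      set DP := (S ×ˢ A).filter (fun q => (gr E).Adj q.1 q.2) with hDP
      set P0 := DP.image (fun q => s(q.1, q.2)) with hP0
      have hDPcard : S.card * (δ + 1) ≤ DP.card := by
        have h1 : DP.card = ∑ v ∈ S, (nb (gr E) A v).card := by
          rw [hDP, Finset.card_filter, Finset.sum_product]
          apply Finset.sum_congr rfl
          intro v _
          unfold nb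
          rw [Finset.card_filter]
        rw [h1, ← smul_eq_mul]
        apply Finset.card_nsmul_le_sum
        intro v hv
        exact (mem_filter.1 (hSQ hv)).2
      have hP0card : DP.card ≤ 2 * P0.card := by
        apply Finset.card_le_mul_card_image
        intro e he
        obtain ⟨q, _, rfl⟩ := mem_image.1 he
        have : DP.filter (fun x => s(x.1, x.2) = s(q.1, q.2)) ⊆ {(q.1, q.2), (q.2, q.1)} := by
          intro x hx
          have hx2 := (mem_filter.1 hx).2
          rw [Sym2.eq_iff] at hx2
          rw [mem_insert, Finset.mem_singleton]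
          rcases hx2 with ⟨h1, h2⟩ | ⟨h1, h2⟩
          · left; exact Prod.ext h1 h2
          · right; exact Prod.ext h1 h2
        exact (card_le_card this).trans card_le_two
      set P1 := P0.filter (fun e => Sym2.map σ e ≠ e) with hP1
      have hP1card : P0.card ≤ P1.card + S.card := by
        have h1 : P0 ⊆ P1 ∪ S.image (fun v => s(v, σ v)) := by
          intro e he
          by_cases hf : Sym2.map σ e = e
          · apply mem_union_right
            obtain ⟨q, hq, rfl⟩ := mem_image.1 he
            obtain ⟨hq1, hq2⟩ := mem_filter.1 hq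
            have hqS := (mem_product.1 hq1).1
            have hmove := (mem_filter.1 hqS).2
            rw [Sym2.map_mk, Sym2.eq_iff] at hf
            rcases hf with ⟨h1, _⟩ | ⟨h1, _⟩
            · exact absurd h1 hmove
            · exact mem_image.2 ⟨q.1, hqS, by rw [h1]⟩
          · exact mem_union_left _ (mem_filter.2 ⟨he, hf⟩)
        refine (card_le_card h1).trans ((card_union_le _ _).trans ?_)
        exact Nat.add_le_add_left card_image_le _
      have hinj : Function.Injective (Sym2.map σ) := Sym2.map.injective σ.injective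
      obtain ⟨P, hPP1, hPdisj, hPcard⟩ := third (Sym2.map σ) hinj P1
        (fun e he => (mem_filter.1 he).2)
      have h4t : 4 * t ≤ P.card := by
        have e1 : S.card * (δ + 1) ≤ 2 * (3 * P.card + S.card) := by omega
        have e2 : 24 * R + 26 * S.card ≤ (δ + 1) * S.card := by
          obtain ⟨k, hk⟩ := Nat.exists_eq_add_of_le (Nat.succ_le_of_lt hcon)
          rw [hk]
          have : 26 ≤ δ + 1 := by
            by_contra hlt
            push Not at hlt
            have : (δ + 1) * (M + 1) < 26 * (M + 1) :=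
              Nat.mul_lt_mul_of_pos_right hlt (by omega)
            omega
          have h3 : 26 * k ≤ (δ + 1) * k := Nat.mul_le_mul_right _ this
          calc 24 * R + 26 * (M.succ + k) = (24 * R + 26 * (M + 1)) + 26 * k := by
                rw [Nat.succ_eq_add_one]; ring
            _ ≤ (δ + 1) * (M + 1) + (δ + 1) * k := Nat.add_le_add hδ h3
            _ = (δ + 1) * (M.succ + k) := by rw [Nat.succ_eq_add_one]; ring
        have e3 : (δ + 1) * S.card = S.card * (δ + 1) := Nat.mul_comm _ _
        omega
      obtain ⟨P2, hP2P, hP2card⟩ := Finset.exists_subset_card_eq h4t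
      have hP2prop : ∀ e ∈ P2, e ∈ E ∧ Sym2.map (mv c) e = Sym2.map σ e ∧ Sym2.map σ e ∈ E := by
        intro e he
        have h1 : e ∈ P0 := (mem_filter.1 (hPP1 (hP2P he))).1
        obtain ⟨q, hq, rfl⟩ := mem_image.1 h1
        obtain ⟨hq1, hq2⟩ := mem_filter.1 hq
        obtain ⟨hqS, hqA⟩ := mem_product.1 hq1
        refine ⟨(gr_adj.1 hq2).1, ?_, ?_⟩
        · rw [Sym2.map_mk, Sym2.map_mk, hmv _ (hSA hqS), hmv _ hqA]
        · rw [Sym2.map_mk]
          exact (gr_adj.1 (hσ _ (hSA hqS) _ hqA hq2)).1
      have himg : P2.image (Sym2.map (mv c)) = P2.image (Sym2.map σ) :=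
        Finset.image_congr (fun e he => (hP2prop e he).2.1)
      have hcardim : (P2.image (Sym2.map σ)).card = 4 * t := by
        rw [card_image_of_injective _ hinj, hP2card]
      have hdisj2 : Disjoint P2 (P2.image (Sym2.map σ)) :=
        Finset.disjoint_of_subset_left hP2P
          (Finset.disjoint_of_subset_right (image_subset_image hP2P) hPdisj)
      have hcardun : (P2 ∪ P2.image (Sym2.map (mv c))).card = 8 * t := by
        rw [himg, card_union_of_disjoint hdisj2, hP2card, hcardim]
        omega
      have hsubE : P2 ∪ P2.image (Sym2.map (mv c)) ⊆ E := by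
        intro e he
        rcases mem_union.1 he with he | he
        · exact (hP2prop e he).1
        · obtain ⟨e', he', rfl⟩ := mem_image.1 he
          rw [(hP2prop e' he').2.1]
          exact (hP2prop e' he').2.2
      apply h.e4 t (by omega) (by omega) c P2 hP2card hcardun
      rw [Finset.inter_eq_right.2 hsubE, hcardun]

end Pool.Agent.Helper56.Iso
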