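import Pool.Agent.Helper56.Iso.Numerics

/-!
The exponential lower bound for programs with isomorphism caching.
-/

namespace Pool.Agent.Helper56.Iso

open Finset

/-- existence of a graph with the required edge statistics -/
theorem exists_stat {n m B z0 H R M K' δ D g L : ℕ} (hD : 4 ≤ D)
    (hm : 2916 * (2 : ℝ) ^ (10 * D) ≤ m)
    (hn1 : 1 ≤ n) (hn : n ≤ (2 ^ (2 * D) + 1) * m)
    (hB : 4 * 2 ^ (3 * D) * m ^ 2 ≤ B * B)
    (hz0 : z0 * 2 ^ g * 8 ≤ 2 ^ D * m)
    (hH : 2 * 2 ^ (2 * D) * m ≤ g * H)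
    (hR : R = 32 * 2 ^ D * m)
    (hK' : 2 ^ (2 * D) * m ≤ 2 * K')
    (hδ : 8 * δ ≤ 2 ^ D)
    (hL : 8 * 2 ^ D * n ≤ L) :
    ∃ E : Finset (Sym2 (Fin n)), Stat E B z0 H R M K' δ ∧ E.card ≤ L := by
  classical
  set x : ℝ := 2 ^ D with hx
  have hx2 : (2 : ℝ) ^ (2 * D) = x ^ 2 := by rw [hx, ← pow_mul, mul_comm]
  have hx3 : (2 : ℝ) ^ (3 * D) = x ^ 3 := by rw [hx, ← pow_mul, mul_comm]
  have hx10' : (2 : ℝ) ^ (10 * D) = x ^ 10 := by rw [hx, ← pow_mul, mul_comm]
  rw [hx10'] at hm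
  have hx10 : 10 ≤ x := by
    calc (10 : ℝ) ≤ 2 ^ 4 := by norm_num
      _ ≤ x := pow_le_pow_right₀ (by norm_num) hD
  have hm10 : (10 : ℝ) ≤ m := by
    refine le_trans ?_ hm
    have : (1 : ℝ) ≤ x ^ 10 := one_le_pow₀ (by linarith)
    linarith
  have hm0 : (0 : ℝ) < m := by linarith
  have hnR : (n : ℝ) ≤ (x ^ 2 + 1) * m := by
    rw [← hx2]; exact_mod_cast hn
  have hn1R : (1 : ℝ) ≤ n := by exact_mod_cast hn1
  set p : ℝ := 1 / (x * m) with hp
  have hxm : 0 < x * m := by positivity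
  have hp0 : 0 < p := by positivity
  have hp1 : p ≤ 1 := by
    rw [hp, div_le_one hxm]
    nlinarith
  have hpm : p ≤ 1 / m := by
    rw [hp]
    apply one_div_le_one_div_of_le hm0
    nlinarith
  -- the bounds
  have q1 := bad1 (n := n) hp0.le hp1 B
  have q2 := bad2 (n := n) (θ := 2 ^ g) hp0.le hp1 (one_le_pow₀ (by norm_num)) z0 H
  have q3 := bad3 (n := n) hp0.le hp1 R K' δ
  have q5 := bad5 (n := n) hp0.le hp1 hn1 L
  have r1 := q1.trans (num1 (n := n) (x := x) (m := m) (w := p * (B * B) / 2) hx10 hm10 hnR (by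
    have h1 : 4 * x ^ 3 * m ^ 2 ≤ (B * B : ℝ) := by
      rw [← hx3]; exact_mod_cast hB
    rw [hp]
    have h2 : 2 * x ^ 2 * m = 1 / (x * m) * (4 * x ^ 3 * m ^ 2) / 2 := by
      field_simp
      ring
    rw [h2]
    have h3 := mul_le_mul_of_nonneg_left h1 (le_of_lt (one_div_pos.2 hxm))
    linarith))
  have r2 := q2.trans (show _ ≤ (1 / 8 : ℝ) by
    rw [← pow_mul]
    apply num2 (n := n) (x := x) (m := m) hx10 hm10 hnR
    · have h1 : (z0 : ℝ) * 2 ^ g * 8 ≤ x * m := by rw [hx]; exact_mod_cast hz0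
      have h2 : p * 2 ^ g * (z0 * n) = (p * (z0 * 2 ^ g * 8)) * (n / 8) := by ring
      rw [h2]
      have h3 : p * (z0 * 2 ^ g * 8) ≤ 1 := by
        rw [hp, one_div, inv_mul_le_iff₀ hxm, mul_one]; exact h1
      have h4 : (0 : ℝ) ≤ n / 8 := by positivity
      nlinarith
    · rw [← hx2]; exact_mod_cast hH)
  have r3 := q3.trans (show _ ≤ (1 / 8 : ℝ) by
    apply num3 (n := n) (x := x) (m := m) hx10 hm10 hnR
    · have h1 : (8 : ℝ) * δ ≤ x := by rw [hx]; exact_mod_cast hδ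
      rw [hR]
      push_cast
      rw [← hx]
      have h2 : (δ : ℝ) * (32 * x * m) = (8 * δ) * (4 * x * m) := by ring
      rw [h2]
      calc (8 * (δ : ℝ)) * (4 * x * m) ≤ x * (4 * x * m) :=
            mul_le_mul_of_nonneg_right h1 (by positivity)
        _ = 4 * x ^ 2 * m := by ring
    · have h1 : x ^ 2 * m ≤ 2 * (K' : ℝ) := by rw [← hx2]; exact_mod_cast hK'
      rw [hR]
      push_cast
      rw [← hx, hp]
      have h2 : 1 / (x * m) * (32 * x * m * K') / 2 = 8 * (2 * (K' : ℝ)) := by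
        field_simp
        ring
      rw [h2]
      linarith)
  have r5 := q5.trans (show _ ≤ (1 / 8 : ℝ) by
    apply num5 (n := n) (x := x) hx10 hn1
    · have h1 : p * n ≤ x + 1 / x := by
        rw [hp, one_div, inv_mul_le_iff₀ hxm]
        calc (n : ℝ) ≤ (x ^ 2 + 1) * m := hnR
          _ = x * m * (x + 1 / x) := by field_simp
      have h2 : 1 / x ≤ 1 := by rw [div_le_one (by linarith)]; linarith
      have h3 : p * 2 * (n : ℝ) ^ 2 = 2 * (p * n) * n := by ring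
      rw [h3]
      apply mul_le_mul_of_nonneg_right _ (by linarith)
      have h4 : 1 / x ≤ 0.05 * x := by
        rw [div_le_iff₀ (by linarith)]
        nlinarith
      linarith
    · rw [hx]; exact_mod_cast hL)
  have q4 : Pr p (fun E : Finset (Sym2 (Fin n)) => ∃ t ∈ Finset.Icc (M + 1 + R) (n + R),
      Bad4 t E) ≤ 1 / 8 := by
    have h1 := Pr_union (α := Sym2 (Fin n)) hp0.le hp1 (Finset.Icc (M + 1 + R) (n + R))
      (fun t E => Bad4 t E) (bd := (1 / 4 : ℝ) ^ m) (by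
        intro t ht
        rw [Finset.mem_Icc] at ht
        have hmt : m ≤ t := by
          have h2 : m ≤ R := by
            rw [hR]
            have : 1 ≤ 32 * 2 ^ D := by
              have := Nat.one_le_two_pow (n := D)
              omega
            calc m = 1 * m := (one_mul m).symm
              _ ≤ 32 * 2 ^ D * m := Nat.mul_le_mul_right m this
          omega
        exact (bad4 hp0 hp1 hn1 (by omega)).trans (num4 hx10 hm hnR hmt hp0 hpm))
    refine h1.trans ?_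
    have h2 : ((Finset.Icc (M + 1 + R) (n + R)).card : ℝ) ≤ n := by
      have : (Finset.Icc (M + 1 + R) (n + R)).card ≤ n := by
        rw [Nat.card_Icc]; omega
      exact_mod_cast this
    exact (mul_le_mul_of_nonneg_right h2 (by positivity)).trans (num4' hx10 hm hnR)
  -- a good set
  obtain ⟨E, hE⟩ := exists_good (p := p)
    (Bad := fun E : Finset (Sym2 (Fin n)) =>
      (∃ S T : Finset (Fin n), Disjoint S T ∧ B ≤ S.card ∧ B ≤ T.card ∧
        (E ∩ cross S T).card ≤ 0) ∨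
      (∃ Z : Finset (Fin n), Z.card ≤ z0 ∧ H + 1 ≤ (E ∩ cross Z univ).card) ∨
      (∃ Y A : Finset (Fin n), Disjoint Y A ∧ Y.card = R ∧ K' ≤ A.card ∧
        (E ∩ cross Y A).card ≤ δ * R) ∨
      (∃ t ∈ Finset.Icc (M + 1 + R) (n + R), Bad4 t E) ∨
      L + 1 ≤ E.card) (by
      have s1 := Pr_or_le (α := Sym2 (Fin n)) hp0.le hp1
        (fun E => ∃ S T : Finset (Fin n), Disjoint S T ∧ B ≤ S.card ∧ B ≤ T.card ∧
          (E ∩ cross S T).card ≤ 0)
        (fun E => (∃ Z : Finset (Fin n), Z.card ≤ z0 ∧ H + 1 ≤ (E ∩ cross Z univ).card) ∨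
          (∃ Y A : Finset (Fin n), Disjoint Y A ∧ Y.card = R ∧ K' ≤ A.card ∧
            (E ∩ cross Y A).card ≤ δ * R) ∨
          (∃ t ∈ Finset.Icc (M + 1 + R) (n + R), Bad4 t E) ∨ L + 1 ≤ E.card)
      have s2 := Pr_or_le (α := Sym2 (Fin n)) hp0.le hp1
        (fun E => ∃ Z : Finset (Fin n), Z.card ≤ z0 ∧ H + 1 ≤ (E ∩ cross Z univ).card)
        (fun E => (∃ Y A : Finset (Fin n), Disjoint Y A ∧ Y.card = R ∧ K' ≤ A.card ∧
            (E ∩ cross Y A).card ≤ δ * R) ∨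
          (∃ t ∈ Finset.Icc (M + 1 + R) (n + R), Bad4 t E) ∨ L + 1 ≤ E.card)
      have s3 := Pr_or_le (α := Sym2 (Fin n)) hp0.le hp1
        (fun E => ∃ Y A : Finset (Fin n), Disjoint Y A ∧ Y.card = R ∧ K' ≤ A.card ∧
            (E ∩ cross Y A).card ≤ δ * R)
        (fun E => (∃ t ∈ Finset.Icc (M + 1 + R) (n + R), Bad4 t E) ∨ L + 1 ≤ E.card)
      have s4 := Pr_or_le (α := Sym2 (Fin n)) hp0.le hp1
        (fun E => ∃ t ∈ Finset.Icc (M + 1 + R) (n + R), Bad4 t E)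
        (fun E => L + 1 ≤ E.card)
      linarith)
  simp only [not_or] at hE
  obtain ⟨h1, h2, h3, h4, h5⟩ := hE
  refine ⟨E, ⟨?_, ?_, ?_, ?_⟩, by omega⟩
  · intro S T a b c d
    exact h1 ⟨S, T, a, b, c, d⟩
  · intro Z a b
    exact h2 ⟨Z, a, b⟩
  · intro Y A a b c d
    exact h3 ⟨Y, A, a, b, c, d⟩
  · intro t a b c P d e f
    exact h4 ⟨t, Finset.mem_Icc.2 ⟨a, b⟩, c, P, d, e, f⟩

theorem ball_bound {n m M D : ℕ} (hD : 13 ≤ 2 * D) (hn : n ≤ 2 * 2 ^ (2 * D) * m)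
    (hM : M = 2 ^ 14 * m) : (ball n M : ℝ) ≤ 2 ^ (2 * D * M) := by
  obtain ⟨q, hq⟩ : ∃ q, 2 * D = q + 13 := ⟨2 * D - 13, by omega⟩
  have h1 := ball_le (n := n) (M := M) (y := 1 / 2 ^ q) (by positivity)
    (by rw [div_le_one (by positivity)]; exact one_le_pow₀ (by norm_num))
  have h2 : (1 + 1 / 2 ^ q : ℝ) ^ n ≤ 2 ^ (2 * M) := by
    have h3 : (1 + 1 / 2 ^ q : ℝ) ≤ Real.exp (1 / 2 ^ q) := by
      have := Real.add_one_le_exp (1 / 2 ^ q : ℝ)
      linarith
    have h4 : (n : ℝ) * (1 / 2 ^ q) ≤ M := by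
      have h5 : (n : ℝ) ≤ 2 * 2 ^ (q + 13) * m := by
        rw [← hq]; exact_mod_cast hn
      rw [mul_one_div, div_le_iff₀ (by positivity), hM]
      push_cast
      calc (n : ℝ) ≤ 2 * 2 ^ (q + 13) * m := h5
        _ = 16384 * m * 2 ^ q := by rw [pow_add]; ring
    calc (1 + 1 / 2 ^ q : ℝ) ^ n ≤ Real.exp (1 / 2 ^ q) ^ n :=
          pow_le_pow_left₀ (by positivity) h3 n
      _ = Real.exp (n * (1 / 2 ^ q)) := by rw [← Real.exp_nat_mul]
      _ ≤ Real.exp (0.69 * ((2 * M : ℕ) : ℝ)) := by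
          apply Real.exp_le_exp.2
          push_cast
          have : (0 : ℝ) ≤ M := by positivity
          linarith
      _ ≤ 2 ^ (2 * M) := exp_le_two_pow (2 * M)
  have h3 := h1.trans h2
  rw [one_div, inv_pow, ← div_eq_mul_inv, div_le_iff₀ (by positivity), ← pow_mul,
    ← pow_add] at h3
  refine h3.trans (pow_le_pow_right₀ (by norm_num) ?_)
  rw [hq]
  ring_nf
  omega

/-- The lower bound with a dyadic leaf parameter. -/
theorem main_dyadic (r : ℕ) (hr : 1 ≤ r) :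
    ∃ (c : ℝ) (C n0 : ℕ), 0 < c ∧ ∀ n ≥ n0, ∃ G : SimpleGraph (Fin n),
      G.edgeSet.ncard ≤ C * n ∧
      ∀ (l s : ℕ) (f : ℕ → X n → Bool), (l : ℝ) + n / 2 ^ r ≤ n → IsProgram n l s f →
        (∃ v < s, f v = cnf G) → (2 : ℝ) ^ (c * n) ≤ s := by
  obtain ⟨g, hg⟩ : ∃ g, g = 2 ^ (r + 3) := ⟨_, rfl⟩
  have hg1 : r + 3 < g := by rw [hg]; exact Nat.lt_two_pow_self
  have hg16 : 16 ≤ g := by
    rw [hg]
    calc 16 = 2 ^ 4 := by norm_num
      _ ≤ 2 ^ (r + 3) := Nat.pow_le_pow_right (by norm_num) (by omega)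
  obtain ⟨D, hD⟩ : ∃ D, D = 2 * g + 40 := ⟨_, rfl⟩
  obtain ⟨β, hβ⟩ : ∃ β, 2 * D = β + (r + 18) := ⟨2 * D - (r + 18), by omega⟩
  obtain ⟨D3, hD3⟩ : ∃ D3, D = D3 + 3 := ⟨D - 3, by omega⟩
  refine ⟨2 ^ (g + 40) / (2 * 2 ^ (2 * D)), 8 * 2 ^ D, 2 ^ (2 * D) * (2 ^ 12 * 2 ^ (10 * D)),
    by positivity, fun n hn => ?_⟩
  obtain ⟨m, hm⟩ : ∃ m, m = n / 2 ^ (2 * D) := ⟨_, rfl⟩
  have hNpos : 0 < 2 ^ (2 * D) := by positivity
  have hm1 : 2 ^ 12 * 2 ^ (10 * D) ≤ m := by
    rw [hm, Nat.le_div_iff_mul_le hNpos, mul_comm]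
    exact hn
  have hnm : 2 ^ (2 * D) * m ≤ n := by rw [hm]; exact Nat.mul_div_le n _
  have hnm2 : n ≤ (2 ^ (2 * D) + 1) * m := by
    have h1 : n < 2 ^ (2 * D) * m + 2 ^ (2 * D) := by
      rw [hm]
      have := Nat.lt_mul_div_succ n hNpos
      calc n < 2 ^ (2 * D) * (n / 2 ^ (2 * D) + 1) := this
        _ = _ := by ring
    have h2 : 2 ^ (2 * D) ≤ m := by
      refine le_trans ?_ hm1
      calc 2 ^ (2 * D) = 1 * 2 ^ (2 * D) := (one_mul _).symm
        _ ≤ 2 ^ 12 * 2 ^ (10 * D) := Nat.mul_le_mul (by norm_num)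
            (Nat.pow_le_pow_right (by norm_num) (by omega))
    rw [add_mul, one_mul]
    omega
  have hm0 : 1 ≤ m := by
    refine le_trans ?_ hm1
    have := Nat.one_le_two_pow (n := 10 * D)
    omega
  -- the parameters
  obtain ⟨u, hu⟩ : ∃ u, u = 2 ^ β * m := ⟨_, rfl⟩
  obtain ⟨K', hK'⟩ : ∃ K', K' = 2 ^ (2 * D - 1) * m := ⟨_, rfl⟩
  obtain ⟨R, hR⟩ : ∃ R, R = 32 * 2 ^ D * m := ⟨_, rfl⟩
  obtain ⟨M, hM⟩ : ∃ M, M = 2 ^ 14 * m := ⟨_, rfl⟩
  obtain ⟨z0, hz0⟩ : ∃ z0, z0 = 2 ^ (g + 37) * m := ⟨_, rfl⟩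
  have hNu : 2 ^ (2 * D) * m = 2 ^ r * (262144 * u) := by
    rw [hu, hβ, pow_add, pow_add]
    ring
  have h2K' : 2 * K' = 2 ^ (2 * D) * m := by
    rw [hK', ← mul_assoc, ← pow_succ']
    congr 2
    omega
  have hcmp : ∀ a : ℕ, a ≤ β → 2 ^ a * m ≤ u := by
    intro a ha
    rw [hu]
    exact Nat.mul_le_mul_right m (Nat.pow_le_pow_right (by norm_num) ha)
  have hRu : R ≤ u := by
    have := hcmp (D + 5) (by omega)
    refine le_trans (le_of_eq ?_) this
    rw [hR, pow_add]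
    ring
  have hMu : M ≤ u := by rw [hM]; exact hcmp 14 (by omega)
  have hz0u : z0 ≤ u := by rw [hz0]; exact hcmp (g + 37) (by omega)
  have hu2 : 2 ≤ u := by
    have := hcmp 1 (by omega)
    omega
  have hnu : 2 ^ r * (262144 * u) ≤ n := by rw [← hNu]; exact hnm
  have hnu2 : 524288 * u ≤ n := by
    have h1 : 2 * (262144 * u) ≤ 2 ^ r * (262144 * u) := by
      apply Nat.mul_le_mul_right
      calc 2 = 2 ^ 1 := by norm_num
        _ ≤ 2 ^ r := Nat.pow_le_pow_right (by norm_num) hr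
    omega
  have hK'n : 2 * K' ≤ n := by rw [h2K']; exact hnm
  have hn1 : 1 ≤ n := by omega
  -- the graph
  obtain ⟨E, hE, hEcard⟩ := exists_stat (n := n) (m := m) (B := u) (z0 := z0)
    (H := 65536 * u) (R := R) (M := M) (K' := K') (δ := 2 ^ D3) (D := D) (g := g)
    (L := 8 * 2 ^ D * n) (by omega) (by
      have h1 : 2916 * 2 ^ (10 * D) ≤ m := by
        refine le_trans ?_ hm1
        exact Nat.mul_le_mul_right _ (by norm_num)
      exact_mod_cast h1) hn1 hnm2 (by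
      rw [hu]
      have h1 : 2 ^ (2 + 3 * D) ≤ 2 ^ (β + β) := Nat.pow_le_pow_right (by norm_num) (by omega)
      calc 4 * 2 ^ (3 * D) * m ^ 2 = 2 ^ (2 + 3 * D) * m ^ 2 := by rw [pow_add]; norm_num
        _ ≤ 2 ^ (β + β) * m ^ 2 := Nat.mul_le_mul_right _ h1
        _ = 2 ^ β * m * (2 ^ β * m) := by rw [pow_add]; ring) (by
      rw [hz0, hD]
      apply le_of_eq
      have e1 : 2 ^ (2 * g + 40) = 2 ^ (g + 37) * 2 ^ g * 2 ^ 3 := by
        rw [← pow_add, ← pow_add]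
        congr 1
        ring
      rw [e1]
      ring) (by
      apply le_of_eq
      calc 2 * 2 ^ (2 * D) * m = 2 * (2 ^ (2 * D) * m) := by ring
        _ = 2 * (2 ^ r * (262144 * u)) := by rw [hNu]
        _ = g * (65536 * u) := by rw [hg, pow_add]; ring) hR (by rw [h2K']) (by
      rw [hD3, pow_add]
      omega) (le_refl _)
  obtain ⟨K, hK⟩ : ∃ K, K = n - 131073 * u := ⟨_, rfl⟩
  have hgood : Good (gr E) u z0 (65536 * u) R M K := by
    apply hE.good (K := K) (by omega) hn1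
    have e1 : 24 * R + 26 * (M + 1) ≤ 2 ^ D3 * M := by
      have e2 : 2 ^ D3 * M = 2048 * (2 ^ D * m) := by
        rw [hM, hD3, pow_add]; ring
      have e3 : 24 * R = 768 * (2 ^ D * m) := by rw [hR]; ring
      have e4 : 26 * (M + 1) ≤ 1280 * (2 ^ D * m) := by
        have e5 : 2 ^ 14 * m ≤ 2 ^ D * m :=
          Nat.mul_le_mul_right m (Nat.pow_le_pow_right (by norm_num) (by omega))
        rw [← hM] at e5
        have e6 : 1 ≤ M := by omega
        omega
      omega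
    have e7 : 2 ^ D3 * M ≤ (2 ^ D3 + 1) * (M + 1) := Nat.mul_le_mul (by omega) (by omega)
    omega
  refine ⟨gr E, ?_, ?_⟩
  · have h1 : (gr E).edgeSet ⊆ (E : Set (Sym2 (Fin n))) := by
      unfold gr
      rw [SimpleGraph.edgeSet_fromEdgeSet]
      exact Set.sdiff_subset
    have h2 := Set.ncard_le_ncard h1 (Finset.finite_toSet E)
    rw [Set.ncard_coe_finset] at h2
    exact h2.trans hEcard
  · intro l s f hl hf hG
    have hl' : l + 262144 * u ≤ n := by
      have h1 : (262144 * u : ℝ) ≤ n / 2 ^ r := by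
        rw [le_div_iff₀ (by positivity)]
        have : ((2 ^ r * (262144 * u) : ℕ) : ℝ) ≤ n := by exact_mod_cast hnu
        push_cast at this
        linarith
      have h2 : (l : ℝ) + 262144 * u ≤ n := by linarith
      exact_mod_cast h2
    have hcount := count hgood (T := 65536 * u) hf (by omega) (by omega) (by omega) (by omega)
      (by omega) (by omega) hG
    have hratio := choose_ratio (T := 65536 * u) (B := u) (by omega) z0
    have hBpos : 0 < u.choose z0 := Nat.choose_pos hz0u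
    have hupos : 0 < u ^ z0 := Nat.pow_pos (by omega)
    have h3 : 65536 ^ z0 ≤ s * ball n M := by
      have h4 : (u.choose z0 * u ^ z0) * 65536 ^ z0 ≤ (u.choose z0 * u ^ z0) * (s * ball n M) := by
        calc (u.choose z0 * u ^ z0) * 65536 ^ z0 = u.choose z0 * (65536 * u) ^ z0 := by
              rw [mul_pow]; ring
          _ ≤ (65536 * u).choose z0 * u ^ z0 := hratio
          _ ≤ (s * (ball n M * u.choose z0)) * u ^ z0 := Nat.mul_le_mul_right _ hcount
          _ = (u.choose z0 * u ^ z0) * (s * ball n M) := by ring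
      exact Nat.le_of_mul_le_mul_left h4 (Nat.mul_pos hBpos hupos)
    have h5 := ball_bound (n := n) (m := m) (M := M) (D := D) (by omega) (by
      have : (2 ^ (2 * D) + 1) * m ≤ 2 * 2 ^ (2 * D) * m := by
        apply Nat.mul_le_mul_right
        have := Nat.one_le_two_pow (n := 2 * D)
        omega
      exact hnm2.trans this) hM
    have h6 : 2 * D * M ≤ 8 * z0 := by
      rw [hM, hz0]
      have e1 : 2 * D * 2 ^ 14 ≤ 8 * 2 ^ (g + 37) := by
        have e2 : g < 2 ^ g := Nat.lt_two_pow_self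
        rw [pow_add, hD]
        omega
      calc 2 * D * (2 ^ 14 * m) = (2 * D * 2 ^ 14) * m := by ring
        _ ≤ (8 * 2 ^ (g + 37)) * m := Nat.mul_le_mul_right m e1
        _ = 8 * (2 ^ (g + 37) * m) := by ring
    have h7 : (2 : ℝ) ^ (16 * z0) ≤ s * 2 ^ (8 * z0) := by
      have e1 : ((65536 ^ z0 : ℕ) : ℝ) ≤ ((s * ball n M : ℕ) : ℝ) := by exact_mod_cast h3
      push_cast at e1
      have e2 : (2 : ℝ) ^ (16 * z0) = 65536 ^ z0 := by rw [pow_mul]; norm_num
      rw [e2]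
      refine e1.trans (mul_le_mul_of_nonneg_left ?_ (by positivity))
      exact h5.trans (pow_le_pow_right₀ (by norm_num) h6)
    have h8 : (2 : ℝ) ^ (8 * z0) ≤ s := by
      have e1 : (2 : ℝ) ^ (16 * z0) = 2 ^ (8 * z0) * 2 ^ (8 * z0) := by
        rw [← pow_add]; congr 1; ring
      rw [e1] at h7
      exact le_of_mul_le_mul_right h7 (by positivity)
    refine le_trans ?_ h8
    rw [← Real.rpow_natCast (2 : ℝ) (8 * z0)]
    apply Real.rpow_le_rpow_of_exponent_le (by norm_num)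
    have e1 : (n : ℝ) ≤ 2 * 2 ^ (2 * D) * m := by
      have : n ≤ 2 * 2 ^ (2 * D) * m := by
        have : (2 ^ (2 * D) + 1) * m ≤ 2 * 2 ^ (2 * D) * m := by
          apply Nat.mul_le_mul_right
          have := Nat.one_le_two_pow (n := 2 * D)
          omega
        exact hnm2.trans this
      exact_mod_cast this
    rw [hz0]
    push_cast
    rw [div_mul_eq_mul_div, div_le_iff₀ (by positivity)]
    calc (2 : ℝ) ^ (g + 40) * n ≤ 2 ^ (g + 40) * (2 * 2 ^ (2 * D) * m) :=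
          mul_le_mul_of_nonneg_left e1 (by positivity)
      _ = 8 * (2 ^ (g + 37) * m) * (2 * 2 ^ (2 * D)) := by
          rw [show g + 40 = (g + 37) + 3 by ring, pow_add]; ring

/-- **Main theorem.** For every `ε > 0` there are 2-CNFs with linearly many clauses for which
every program with isomorphism caching, even with all functions of at most `(1 - ε) n`
variables as free leaves, has exponential size. -/
theorem main (ε : ℝ) (hε : 0 < ε) :
    ∃ (c : ℝ) (C n0 : ℕ), 0 < c ∧ ∀ n ≥ n0, ∃ G : SimpleGraph (Fin n),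
      G.edgeSet.ncard ≤ C * n ∧
      ∀ (l s : ℕ) (f : ℕ → X n → Bool), (l : ℝ) ≤ (1 - ε) * n → IsProgram n l s f →
        (∃ v < s, f v = cnf G) → (2 : ℝ) ^ (c * n) ≤ s := by
  obtain ⟨r, hr⟩ := exists_pow_lt_of_lt_one hε (show (1 / 2 : ℝ) < 1 by norm_num)
  obtain ⟨c, C, n0, hc, h⟩ := main_dyadic (r + 1) (by omega)
  refine ⟨c, C, n0, hc, fun n hn => ?_⟩
  obtain ⟨G, hG, h⟩ := h n hn
  refine ⟨G, hG, fun l s f hl => h l s f ?_⟩
  have h1 : (n : ℝ) / 2 ^ (r + 1) ≤ ε * n := by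
    have h2 : (1 / 2 : ℝ) ^ (r + 1) ≤ ε := by
      refine le_trans ?_ hr.le
      exact pow_le_pow_of_le_one (by norm_num) (by norm_num) (by omega)
    calc (n : ℝ) / 2 ^ (r + 1) = (1 / 2 : ℝ) ^ (r + 1) * n := by
          rw [one_div, inv_pow]; ring
      _ ≤ ε * n := mul_le_mul_of_nonneg_right h2 (by positivity)
  linarith

end Pool.Agent.Helper56.Iso
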