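import Pool.Agent.Helper56.Iso.Bounds
import Pool.Agent.Helper56.Iso.Count

/-!
Choice of the parameters.
-/

namespace Pool.Agent.Helper56.Iso

open Finset

theorem two_pow_le_exp (k : ℕ) : (2 : ℝ) ^ k ≤ Real.exp (0.7 * k) := by
  have h : (2 : ℝ) ≤ Real.exp 0.7 := by
    have h1 := Real.log_two_lt_d9
    rw [← Real.exp_log (show (0 : ℝ) < 2 by norm_num)]
    apply Real.exp_le_exp.2
    linarith
  calc (2 : ℝ) ^ k ≤ Real.exp 0.7 ^ k := pow_le_pow_left₀ (by norm_num) h k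
    _ = Real.exp (0.7 * k) := by rw [← Real.exp_nat_mul]; ring_nf

theorem exp_le_two_pow (k : ℕ) : Real.exp (0.69 * k) ≤ (2 : ℝ) ^ k := by
  have h : Real.exp 0.69 ≤ 2 := by
    have h1 := Real.log_two_gt_d9
    calc Real.exp 0.69 ≤ Real.exp (Real.log 2) := Real.exp_le_exp.2 (by linarith)
      _ = 2 := Real.exp_log (by norm_num)
  calc Real.exp (0.69 * k) = Real.exp 0.69 ^ k := by rw [← Real.exp_nat_mul]; ring_nf
    _ ≤ 2 ^ k := pow_le_pow_left₀ (Real.exp_nonneg _) h k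

theorem exp_neg_three : Real.exp (-3) ≤ 1 / 8 := by
  have h := exp_le_two_pow 4
  have h1 : (8 : ℝ) ≤ Real.exp 3 := by
    have h2 := two_pow_le_exp 3
    calc (8 : ℝ) = 2 ^ 3 := by norm_num
      _ ≤ _ := h2
      _ ≤ Real.exp 3 := Real.exp_le_exp.2 (by norm_num)
  rw [Real.exp_neg, one_div]
  exact inv_anti₀ (by norm_num) h1

theorem le_eighth {y : ℝ} (h : y ≤ -3) : Real.exp y ≤ 1 / 8 :=
  (Real.exp_le_exp.2 h).trans exp_neg_three

theorem four_pow_le (n : ℕ) : (4 : ℝ) ^ n ≤ Real.exp (1.4 * n) := by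
  have h := two_pow_le_exp (2 * n)
  rw [pow_mul] at h
  norm_num at h ⊢
  convert h using 2
  ring

/-- the first bound -/
theorem num1 {n : ℕ} {x m w : ℝ} (hx : 10 ≤ x) (hm : 10 ≤ m) (hn : (n : ℝ) ≤ (x ^ 2 + 1) * m)
    (hw : 2 * x ^ 2 * m ≤ w) : (4 : ℝ) ^ n * Real.exp (-w) ≤ 1 / 8 := by
  calc (4 : ℝ) ^ n * Real.exp (-w) ≤ Real.exp (1.4 * n) * Real.exp (-w) :=
        mul_le_mul_of_nonneg_right (four_pow_le n) (Real.exp_nonneg _)
    _ = Real.exp (1.4 * n - w) := by rw [← Real.exp_add]; ring_nf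
    _ ≤ 1 / 8 := by
        apply le_eighth
        have h1 : 100 * m ≤ x ^ 2 * m := by
          apply mul_le_mul_of_nonneg_right _ (by linarith)
          nlinarith
        nlinarith

theorem num2 {n k : ℕ} {x m w : ℝ} (hx : 10 ≤ x) (hm : 10 ≤ m)
    (hn : (n : ℝ) ≤ (x ^ 2 + 1) * m) (hw : w ≤ n / 8) (hk : 2 * x ^ 2 * m ≤ k) :
    (2 : ℝ) ^ n * (Real.exp w / 2 ^ k) ≤ 1 / 8 := by
  have h2 : Real.exp w / 2 ^ k ≤ Real.exp w / Real.exp (0.69 * k) := by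
    apply div_le_div_of_nonneg_left (Real.exp_nonneg _) (Real.exp_pos _) (exp_le_two_pow k)
  calc (2 : ℝ) ^ n * (Real.exp w / 2 ^ k)
      ≤ Real.exp (0.7 * n) * (Real.exp w / Real.exp (0.69 * k)) := by
        apply mul_le_mul (two_pow_le_exp n) h2 (by positivity) (Real.exp_nonneg _)
    _ = Real.exp (0.7 * n + w - 0.69 * k) := by
        rw [← Real.exp_sub, ← Real.exp_add]; ring_nf
    _ ≤ 1 / 8 := by
        apply le_eighth
        have h1 : 100 * m ≤ x ^ 2 * m := by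
          apply mul_le_mul_of_nonneg_right _ (by linarith)
          nlinarith
        nlinarith

theorem num3 {n k : ℕ} {x m w : ℝ} (hx : 10 ≤ x) (hm : 10 ≤ m)
    (hn : (n : ℝ) ≤ (x ^ 2 + 1) * m) (hk : (k : ℝ) ≤ 4 * x ^ 2 * m) (hw : 8 * x ^ 2 * m ≤ w) :
    (4 : ℝ) ^ n * (2 ^ k * Real.exp (-w)) ≤ 1 / 8 := by
  calc (4 : ℝ) ^ n * (2 ^ k * Real.exp (-w))
      ≤ Real.exp (1.4 * n) * (Real.exp (0.7 * k) * Real.exp (-w)) := by
        apply mul_le_mul (four_pow_le n) _ (by positivity) (Real.exp_nonneg _)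
        exact mul_le_mul_of_nonneg_right (two_pow_le_exp k) (Real.exp_nonneg _)
    _ = Real.exp (1.4 * n + 0.7 * k - w) := by
        rw [← Real.exp_add, ← Real.exp_add]; ring_nf
    _ ≤ 1 / 8 := by
        apply le_eighth
        have h1 : 100 * m ≤ x ^ 2 * m := by
          apply mul_le_mul_of_nonneg_right _ (by linarith)
          nlinarith
        nlinarith

theorem num5 {n k : ℕ} {x w : ℝ} (hx : 10 ≤ x) (hn : 1 ≤ n) (hw : w ≤ 2.1 * x * n)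
    (hk : 8 * x * n ≤ k) : Real.exp w / 2 ^ k ≤ 1 / 8 := by
  have h2 : Real.exp w / 2 ^ k ≤ Real.exp w / Real.exp (0.69 * k) := by
    apply div_le_div_of_nonneg_left (Real.exp_nonneg _) (Real.exp_pos _) (exp_le_two_pow k)
  refine h2.trans ?_
  rw [← Real.exp_sub]
  apply le_eighth
  have h3 : (1 : ℝ) ≤ n := by exact_mod_cast hn
  have h4 : 10 ≤ x * n := by nlinarith
  nlinarith

theorem num4 {n t m : ℕ} {x p : ℝ} (hx : 10 ≤ x) (hm : 2916 * x ^ 10 ≤ m)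
    (hn : (n : ℝ) ≤ (x ^ 2 + 1) * m) (hmt : m ≤ t) (hp : 0 < p) (hpm : p ≤ 1 / m) :
    ((n : ℝ) ^ 2 * (Real.exp 1 * (n : ℝ) ^ 2 / (4 * t)) ^ 4 *
        (Real.exp 1 * p) ^ 8) ^ t ≤ (1 / 4 : ℝ) ^ m := by
  have he : Real.exp 1 ≤ 3 := by
    have := Real.exp_one_lt_d9
    linarith
  have he0 := Real.exp_pos 1
  have hx10 : (10 : ℝ) ≤ x ^ 10 := by
    calc (10 : ℝ) ≤ 10 ^ 10 := by norm_num
      _ ≤ x ^ 10 := pow_le_pow_left₀ (by norm_num) hx 10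
  have hm0 : (0 : ℝ) < m := by
    have : (0 : ℝ) < 2916 * x ^ 10 := by positivity
    linarith
  have hmt' : (m : ℝ) ≤ t := by exact_mod_cast hmt
  have hn2 : (n : ℝ) ≤ 2 * x ^ 2 * m := by
    have h1 : (1 : ℝ) ≤ x ^ 2 := by nlinarith
    have := mul_le_mul_of_nonneg_right h1 hm0.le
    nlinarith
  have b1 : (n : ℝ) ^ 2 ≤ (2 * x ^ 2 * m) ^ 2 := pow_le_pow_left₀ (by positivity) hn2 2
  have b2 : Real.exp 1 * (n : ℝ) ^ 2 / (4 * t) ≤ 3 * x ^ 4 * m := by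
    have h1 : Real.exp 1 * (n : ℝ) ^ 2 ≤ 3 * (2 * x ^ 2 * m) ^ 2 :=
      mul_le_mul he b1 (by positivity) (by norm_num)
    rw [div_le_iff₀ (by linarith)]
    refine h1.trans ?_
    have h2 : 3 * x ^ 4 * m * (4 * m) ≤ 3 * x ^ 4 * m * (4 * t) := by
      apply mul_le_mul_of_nonneg_left _ (by positivity)
      linarith
    refine le_trans (le_of_eq ?_) h2
    ring
  have b3 : Real.exp 1 * p ≤ 3 / m := by
    calc Real.exp 1 * p ≤ 3 * (1 / m) := mul_le_mul he hpm hp.le (by norm_num)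
      _ = 3 / m := by ring
  have hbase : (n : ℝ) ^ 2 * (Real.exp 1 * (n : ℝ) ^ 2 / (4 * t)) ^ 4 *
        (Real.exp 1 * p) ^ 8 ≤ 1 / 4 := by
    have ht0 : (0 : ℝ) < t := by linarith
    have c2 : (Real.exp 1 * (n : ℝ) ^ 2 / (4 * t)) ^ 4 ≤ (3 * x ^ 4 * m) ^ 4 :=
      pow_le_pow_left₀ (by positivity) b2 4
    have c3 : (Real.exp 1 * p) ^ 8 ≤ (3 / m) ^ 8 := pow_le_pow_left₀ (by positivity) b3 8
    calc (n : ℝ) ^ 2 * (Real.exp 1 * (n : ℝ) ^ 2 / (4 * t)) ^ 4 * (Real.exp 1 * p) ^ 8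
        ≤ ((2 * x ^ 2 * m) ^ 2 * (3 * x ^ 4 * m) ^ 4) * (3 / m) ^ 8 := by
          apply mul_le_mul _ c3 (by positivity) (by positivity)
          exact mul_le_mul b1 c2 (by positivity) (by positivity)
      _ = (2916 * x ^ 10) ^ 2 / (4 * m ^ 2) * (1 : ℝ) := by
          field_simp
          ring
      _ ≤ 1 / 4 := by
          rw [mul_one, div_le_div_iff₀ (by positivity) (by norm_num)]
          have : (2916 * x ^ 10) ^ 2 ≤ (m : ℝ) ^ 2 := pow_le_pow_left₀ (by positivity) hm 2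
          linarith
  calc ((n : ℝ) ^ 2 * (Real.exp 1 * (n : ℝ) ^ 2 / (4 * t)) ^ 4 *
        (Real.exp 1 * p) ^ 8) ^ t ≤ (1 / 4 : ℝ) ^ t :=
        pow_le_pow_left₀ (by positivity) hbase t
    _ ≤ (1 / 4 : ℝ) ^ m := pow_le_pow_of_le_one (by norm_num) (by norm_num) hmt

theorem num4' {n m : ℕ} {x : ℝ} (hx : 10 ≤ x) (hm : 2916 * x ^ 10 ≤ m)
    (hn : (n : ℝ) ≤ (x ^ 2 + 1) * m) : (n : ℝ) * (1 / 4 : ℝ) ^ m ≤ 1 / 8 := by
  have hm0 : (0 : ℝ) < m := by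
    have : (0 : ℝ) < 2916 * x ^ 10 := by positivity
    linarith
  have h1 : (m : ℝ) ≤ 2 ^ m := by exact_mod_cast Nat.lt_two_pow_self.le
  have h2 : 8 * (x ^ 2 + 1) ≤ m := by
    refine le_trans ?_ hm
    have h3 : x ^ 2 ≤ x ^ 10 := pow_le_pow_right₀ (by linarith) (by norm_num)
    have h4 : (1 : ℝ) ≤ x ^ 2 := by nlinarith
    nlinarith
  have h3 : 8 * (n : ℝ) ≤ 4 ^ m := by
    calc 8 * (n : ℝ) ≤ 8 * ((x ^ 2 + 1) * m) := by linarith
      _ = (8 * (x ^ 2 + 1)) * m := by ring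
      _ ≤ m * m := mul_le_mul_of_nonneg_right h2 hm0.le
      _ ≤ 2 ^ m * 2 ^ m := mul_le_mul h1 h1 hm0.le (by positivity)
      _ = 4 ^ m := by rw [← mul_pow]; norm_num
  rw [one_div, inv_pow, ← div_eq_mul_inv, div_le_div_iff₀ (by positivity) (by norm_num)]
  linarith

end Pool.Agent.Helper56.Iso
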