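import Pool.Agent.Helper56.Iso.Defs

/-!
The tree of restrictions of a program for the 2-CNF of a good graph.
-/

namespace Pool.Agent.Helper56.Iso

open Finset

variable {n : ℕ}

/-- The graph properties used by the lower bound. -/
structure Good (G : SimpleGraph (Fin n)) (B z0 H R M K : ℕ) : Prop where
  p1 : ∀ S T : Finset (Fin n), Disjoint S T → B ≤ S.card → B ≤ T.card →
    ∃ u ∈ S, ∃ v ∈ T, G.Adj u v
  p2 : ∀ Z N : Finset (Fin n), Z.card ≤ z0 → Disjoint Z N →
    (∀ y ∈ N, ∃ z ∈ Z, G.Adj z y) → N.card ≤ H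
  p3 : ∀ A : Finset (Fin n), K ≤ A.card → ∃ Q ⊆ A, A.card ≤ Q.card + R ∧
    (∀ v ∈ Q, ∃ w ∈ A, G.Adj v w) ∧
    ∀ σ : Equiv.Perm (Fin n), (∀ u ∈ A, ∀ v ∈ A, G.Adj u v → G.Adj (σ u) (σ v)) →
      (Q.filter (fun v => σ v ≠ v)).card ≤ M

variable {G : SimpleGraph (Fin n)} {B z0 H R M K : ℕ}

theorem Good.edge (hG : Good G B z0 H R M K) {A : Finset (Fin n)} (hA : 2 * B ≤ A.card) :
    ∃ u ∈ A, ∃ v ∈ A, G.Adj u v := by
  obtain ⟨S, hS, hScard⟩ := Finset.exists_subset_card_eq (s := A) (n := B) (by omega)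
  obtain ⟨u, hu, v, hv, huv⟩ := hG.p1 S (A \ S) disjoint_sdiff (by omega) (by
    rw [card_sdiff_of_subset hS]; omega)
  exact ⟨u, hS hu, v, (mem_sdiff.1 hv).1, huv⟩

theorem Good.edge_avoid (hG : Good G B z0 H R M K) {A : Finset (Fin n)}
    (hA : 2 * B + 2 ≤ A.card) (a b : Fin n) :
    ∃ u ∈ A, ∃ v ∈ A, G.Adj u v ∧ u ≠ a ∧ u ≠ b ∧ v ≠ a ∧ v ≠ b := by
  have h1 : 2 * B ≤ ((A.erase a).erase b).card := by
    have e1 := Finset.pred_card_le_card_erase (s := A) (a := a)
    have e2 := Finset.pred_card_le_card_erase (s := A.erase a) (a := b)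
    omega
  obtain ⟨u, hu, v, hv, huv⟩ := hG.edge h1
  simp only [mem_erase] at hu hv
  exact ⟨u, hu.2.2, v, hv.2.2, huv, hu.2.1, hu.1, hv.2.1, hv.1⟩

/-- the invariant of the walk -/
structure Inv (G : SimpleGraph (Fin n)) (A D Z : Finset (Fin n)) : Prop where
  sub : Z ⊆ D
  out : ∀ w, w ∉ A → w ∉ D → (∀ y ∈ Z, ¬ G.Adj y w) → ∀ a ∈ A, ¬ G.Adj w a

theorem Inv.big (hG : Good G B z0 H R M K) {T : ℕ} {A D Z : Finset (Fin n)}
    (hI : Inv G A D Z) (hn : K + T + H + B ≤ n) (hA : B ≤ A.card) (hD : D.card ≤ T)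
    (hZ : Z.card ≤ z0) : K ≤ A.card := by
  classical
  set N : Finset (Fin n) := univ.filter (fun y => y ∉ D ∧ ∃ z ∈ Z, G.Adj z y) with hN
  have hNcard : N.card ≤ H := by
    apply hG.p2 Z N hZ
    · rw [Finset.disjoint_left]
      intro y hy hyN
      exact (mem_filter.1 hyN).2.1 (hI.sub hy)
    · intro y hy
      exact (mem_filter.1 hy).2.2
  set W : Finset (Fin n) := univ \ (A ∪ D ∪ N) with hW
  have hWcard : W.card < B := by
    by_contra hcon
    push Not at hcon
    have hd : Disjoint W A := by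
      rw [Finset.disjoint_left]
      intro w hw hwA
      exact (mem_sdiff.1 hw).2 (mem_union_left _ (mem_union_left _ hwA))
    obtain ⟨u, hu, v, hv, huv⟩ := hG.p1 W A hd hcon hA
    have hu' := (mem_sdiff.1 hu).2
    simp only [mem_union, not_or] at hu'
    refine hI.out u hu'.1.1 hu'.1.2 (fun y hy hyu => ?_) v hv huv
    exact hu'.2 (mem_filter.2 ⟨mem_univ _, hu'.1.2, y, hy, hyu⟩)
  have h1 : (univ : Finset (Fin n)).card ≤ A.card + D.card + N.card + W.card := by
    have : (univ : Finset (Fin n)) ⊆ A ∪ D ∪ N ∪ W := by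
      intro x _
      by_cases hx : x ∈ A ∪ D ∪ N
      · exact mem_union_left _ hx
      · exact mem_union_right _ (mem_sdiff.2 ⟨mem_univ _, hx⟩)
    refine (card_le_card this).trans ?_
    refine (card_union_le _ _).trans ?_
    have := card_union_le (A ∪ D) N
    have := card_union_le A D
    omega
  rw [card_univ, Fintype.card_fin] at h1
  omega

/-- what a leaf of the walk provides -/
def Leafy (G : SimpleGraph (Fin n)) (f : ℕ → X n → Bool) (K : ℕ) (A Z : Finset (Fin n))
    (v : ℕ) : Prop :=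
  ∃ U' A' : Finset (Fin n), Disjoint U' A' ∧ Same (F G U' A') (f v) ∧ A' ⊆ A ∧
    K ≤ A'.card ∧ ∀ w ∈ Z, ∀ a ∈ A', ¬ G.Adj w a

theorem Leafy.mono {f : ℕ → X n → Bool} {A A₁ Z : Finset (Fin n)} {v : ℕ}
    (h : Leafy G f K A Z v) (hA : A ⊆ A₁) : Leafy G f K A₁ Z v := by
  obtain ⟨U', A', h1, h2, h3, h4, h5⟩ := h
  exact ⟨U', A', h1, h2, h3.trans hA, h4, h5⟩

theorem walk (hG : Good G B z0 H R M K) {T l s : ℕ} {f : ℕ → X n → Bool}
    (hf : IsProgram n l s f) (hn : K + T + H + B ≤ n) (hl : l + 2 * B ≤ K)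
    (hK : 4 * B ≤ K) (hK1 : B + H + 1 ≤ K) :
    ∀ v < s, ∀ (t z : ℕ) (U A D Z₀ : Finset (Fin n)), Disjoint U A →
      Same (F G U A) (f v) → Inv G A D Z₀ → B ≤ A.card → D.card + t ≤ T →
      Z₀.card + z ≤ z0 →
      ∃ 𝓩 : Finset (Finset (Fin n)), t.choose z ≤ 𝓩.card ∧
        ∀ Z ∈ 𝓩, Z.card = z ∧ Z ⊆ A ∧ ∃ v' < s, Leafy G f K A Z v' := by
  classical
  intro v
  induction v using Nat.strong_induction_on with
  | _ v ih =>
  intro hv t z U A D Z₀ hUA hS hI hBA hDt hZz
  have hbig : K ≤ A.card := hI.big hG hn hBA (by omega) (by omega)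
  -- the trivial cases
  rcases Nat.eq_zero_or_pos z with hz | hz
  · subst hz
    refine ⟨{∅}, by simp, fun Z hZ => ?_⟩
    rw [Finset.mem_singleton] at hZ
    subst hZ
    exact ⟨rfl, empty_subset _, v, hv, U, A, hUA, hS, Subset.refl _, hbig, by simp⟩
  rcases Nat.eq_zero_or_pos t with ht | ht
  · subst ht
    refine ⟨∅, ?_, by simp⟩
    rw [Nat.choose_eq_zero_of_lt hz]
    simp
  rcases hf v hv with ⟨S, hScard, hdep⟩ | ⟨i, hi⟩ | ⟨S, T', g, h, op, hST, hg, hh, hop, ⟨a, ha, hga⟩, ⟨b, hb, hhb⟩⟩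
  · -- leaf
    exfalso
    obtain ⟨S', hS'card, hS'⟩ := DependsOn.same hS hdep
    have h1 : 2 * B ≤ (A \ S').card := by
      have := Finset.le_card_sdiff S' A
      omega
    obtain ⟨u, hu, w, hw, huw⟩ := hG.edge h1
    exact leaf_absurd G hUA (mem_sdiff.1 hu).1 (mem_sdiff.1 hw).1 (mem_sdiff.1 hw).2 huw hS'
  · -- decision
    obtain ⟨j, hj⟩ := Same.restr hS i
    have child : ∀ b, ∃ a < v, Same (restr (F G U A) j b) (f a) := by
      intro b
      obtain ⟨b', hb'⟩ := hj b
      obtain ⟨a, ha, hab⟩ := hi b'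
      exact ⟨a, ha, hb'.trans hab⟩
    obtain ⟨a1, ha1, hs1⟩ := child true
    rw [restr_true] at hs1
    have hUA1 : Disjoint (U.erase j) (A.erase j) :=
      Finset.disjoint_of_subset_left (erase_subset _ _)
        (Finset.disjoint_of_subset_right (erase_subset _ _) hUA)
    by_cases hjA : j ∈ A
    · obtain ⟨a0, ha0, hs0⟩ := child false
      rw [restr_false G hjA hUA] at hs0
      have hnb : (nb G A j).card ≤ H := by
        apply hG.p2 {j} (nb G A j) (by simp; omega)
        · rw [Finset.disjoint_left]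
          intro y hy hyN
          rw [Finset.mem_singleton] at hy
          subst hy
          exact G.irrefl ((mem_nb G).1 hyN).2
        · intro y hy
          exact ⟨j, by simp, ((mem_nb G).1 hy).2⟩
      obtain ⟨t, rfl⟩ : ∃ t', t = t' + 1 := ⟨t - 1, by omega⟩
      obtain ⟨z, rfl⟩ : ∃ z', z = z' + 1 := ⟨z - 1, by omega⟩
      -- true child
      have hI1 : Inv G (A.erase j) (insert j D) Z₀ := by
        refine ⟨hI.sub.trans (subset_insert _ _), fun w hw hwD hwZ a ha => ?_⟩
        rw [mem_insert, not_or] at hwD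
        have hwA : w ∉ A := fun h => hw (mem_erase.2 ⟨hwD.1, h⟩)
        exact hI.out w hwA hwD.2 hwZ a (mem_erase.1 ha).2
      have hc1 : B ≤ (A.erase j).card := by
        have := Finset.pred_card_le_card_erase (s := A) (a := j)
        omega
      obtain ⟨𝓩₁, hc₁, hp₁⟩ := ih a1 ha1 (by omega) t (z + 1) (U.erase j) (A.erase j)
        (insert j D) Z₀ hUA1 hs1 hI1 hc1 (by have := card_insert_le j D; omega) hZz
      -- false child
      have hUA0 : Disjoint (U ∪ nb G A j) ((A.erase j) \ nb G A j) := by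
        rw [Finset.disjoint_union_left]
        refine ⟨?_, disjoint_sdiff⟩
        exact Finset.disjoint_of_subset_right
          (sdiff_subset.trans (erase_subset _ _)) hUA
      have hI0 : Inv G ((A.erase j) \ nb G A j) (insert j D) (insert j Z₀) := by
        refine ⟨insert_subset_insert _ hI.sub, fun w hw hwD hwZ a ha => ?_⟩
        rw [mem_insert, not_or] at hwD
        have hwZ1 : ¬ G.Adj j w := hwZ j (mem_insert_self _ _)
        have hwA : w ∉ A := by
          intro h
          apply hw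
          rw [mem_sdiff, mem_erase, mem_nb]
          exact ⟨⟨hwD.1, h⟩, fun h' => hwZ1 h'.2⟩
        exact hI.out w hwA hwD.2 (fun y hy => hwZ y (mem_insert_of_mem hy)) a
          (mem_erase.1 (mem_sdiff.1 ha).1).2
      have hc0 : B ≤ ((A.erase j) \ nb G A j).card := by
        have := Finset.pred_card_le_card_erase (s := A) (a := j)
        have := Finset.le_card_sdiff (nb G A j) (A.erase j)
        omega
      obtain ⟨𝓩₀, hc₀, hp₀⟩ := ih a0 ha0 (by omega) t z (U ∪ nb G A j)
        ((A.erase j) \ nb G A j) (insert j D) (insert j Z₀) hUA0 hs0 hI0 hc0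
        (by have := card_insert_le j D; omega) (by have := card_insert_le j Z₀; omega)
      refine ⟨𝓩₀.image (insert j) ∪ 𝓩₁, ?_, ?_⟩
      · rw [card_union_of_disjoint, card_image_of_injOn, Nat.choose_succ_succ]
        · exact Nat.add_le_add hc₀ hc₁
        · intro Z hZ Z' hZ' hEq
          have h1 : j ∉ Z := fun h => by
            have := (hp₀ Z hZ).2.1 h
            simp at this
          have h2 : j ∉ Z' := fun h => by
            have := (hp₀ Z' hZ').2.1 h
            simp at this
          have := congrArg (fun Y => Y.erase j) hEq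
          simpa [erase_insert h1, erase_insert h2] using this
        · rw [Finset.disjoint_left]
          intro Z hZ hZ1
          obtain ⟨Z', _, rfl⟩ := mem_image.1 hZ
          have := (hp₁ _ hZ1).2.1 (mem_insert_self j Z')
          simp at this
      · intro Z hZ
        rcases mem_union.1 hZ with hZ | hZ
        · obtain ⟨Z', hZ', rfl⟩ := mem_image.1 hZ
          obtain ⟨q1, q2, v', hv', U', A', r1, r2, r3, r4, r5⟩ := hp₀ Z' hZ'
          have h1 : j ∉ Z' := fun h => by
            have := q2 h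
            simp at this
          refine ⟨by rw [card_insert_of_notMem h1, q1], ?_, v', hv', U', A', r1, r2, ?_, r4, ?_⟩
          · exact insert_subset hjA (q2.trans (sdiff_subset.trans (erase_subset _ _)))
          · exact r3.trans (sdiff_subset.trans (erase_subset _ _))
          · intro w hw a ha
            rcases mem_insert.1 hw with rfl | hw
            · intro hadj
              have h2 := mem_sdiff.1 (r3 ha)
              exact h2.2 ((mem_nb G).2 ⟨(mem_erase.1 h2.1).2, hadj⟩)
            · exact r5 w hw a ha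
        · obtain ⟨q1, q2, v', hv', hL⟩ := hp₁ Z hZ
          exact ⟨q1, q2.trans (erase_subset _ _), v', hv', hL.mono (erase_subset _ _)⟩
    · -- the decision variable is not in A
      rw [erase_eq_of_notMem hjA] at hs1 hUA1
      exact ih a1 ha1 (by omega) t z (U.erase j) A D Z₀ hUA1 hs1 hI hBA hDt hZz
  · -- decomposition
    obtain ⟨π, sg, c, hπ⟩ := hS
    set S1 := S.map π.toEmbedding with hS1
    set T1 := T'.map π.toEmbedding with hT1
    set g1 : X n → Bool := fun x => g (fun i => xor (sg i) (x (π i))) with hg1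
    set h1 : X n → Bool := fun x => h (fun i => xor (sg i) (x (π i))) with hh1
    have dg : DependsOn g1 S1 := by
      intro x y hxy
      apply hg
      intro i hi
      have := hxy (π i) (by simpa [hS1] using hi)
      rw [this]
    have dh : DependsOn h1 T1 := by
      intro x y hxy
      apply hh
      intro i hi
      have := hxy (π i) (by simpa [hT1] using hi)
      rw [this]
    have hd : Disjoint S1 T1 := by
      rw [hS1, hT1, Finset.disjoint_map]; exact hST
    have hop1 : ∀ x, F G U A x = (fun p q => xor c (op p q)) (g1 x) (h1 x) := by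
      intro x
      rw [hπ, hop]
    have sg1 : Same g1 g := ⟨π, sg, false, fun x => by simp [hg1]⟩
    have sh1 : Same h1 h := ⟨π, sg, false, fun x => by simp [hh1]⟩
    -- the common argument
    have main : ∀ (P Q : Finset (Fin n)) (g' h' : X n → Bool) (op' : Bool → Bool → Bool),
        Disjoint P Q → DependsOn g' P → DependsOn h' Q →
        (∀ x, F G U A x = op' (g' x) (h' x)) → (∃ a < v, Same g' (f a)) →
        (A ∩ Q).card ≤ (A ∩ P).card →
        ∃ 𝓩 : Finset (Finset (Fin n)), t.choose z ≤ 𝓩.card ∧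
          ∀ Z ∈ 𝓩, Z.card = z ∧ Z ⊆ A ∧ ∃ v' < s, Leafy G f K A Z v' := by
      intro P Q g' h' op' hPQ dP dQ hx hga hle
      obtain ⟨a, ha, hga⟩ := hga
      have hle2 : (A ∩ P).card ≤ (A \ Q).card := by
        apply card_le_card
        intro x hx
        obtain ⟨hx1, hx2⟩ := mem_inter.1 hx
        exact mem_sdiff.2 ⟨hx1, Finset.disjoint_left.1 hPQ hx2⟩
      have hsum : (A \ Q).card + (A ∩ Q).card = A.card := card_sdiff_add_card_inter A Q
      have hbig2 : 2 * B ≤ (A \ Q).card := by omega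
      obtain ⟨u, hu, w, hw, huw⟩ := hG.edge hbig2
      obtain ⟨hSame, hno⟩ := decomp G hUA hPQ dP dQ hx hu hw huw
      have hUA' : Disjoint (U \ Q) (A \ Q) :=
        Finset.disjoint_of_subset_left sdiff_subset
          (Finset.disjoint_of_subset_right sdiff_subset hUA)
      have hI' : Inv G (A \ Q) D Z₀ := by
        refine ⟨hI.sub, fun w hw hwD hwZ a ha => ?_⟩
        by_cases hwA : w ∈ A
        · have hwQ : w ∈ Q := by
            by_contra hwQ
            exact hw (mem_sdiff.2 ⟨hwA, hwQ⟩)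
          exact fun hadj => hno a ha w (mem_inter.2 ⟨hwA, hwQ⟩) hadj.symm
        · exact hI.out w hwA hwD hwZ a (mem_sdiff.1 ha).1
      obtain ⟨𝓩, hc, hp⟩ := ih a ha (by omega) t z (U \ Q) (A \ Q) D Z₀ hUA'
        (hSame.trans hga) hI' (by omega) hDt hZz
      refine ⟨𝓩, hc, fun Z hZ => ?_⟩
      obtain ⟨q1, q2, v', hv', hL⟩ := hp Z hZ
      exact ⟨q1, q2.trans sdiff_subset, v', hv', hL.mono sdiff_subset⟩
    rcases le_total (A ∩ T1).card (A ∩ S1).card with hle | hle
    · exact main S1 T1 g1 h1 (fun p q => xor c (op p q)) hd dg dh hop1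
        ⟨a, ha, sg1.trans hga⟩ hle
    · exact main T1 S1 h1 g1 (fun p q => xor c (op q p)) hd.symm dh dg hop1
        ⟨b, hb, sh1.trans hhb⟩ hle

end Pool.Agent.Helper56.Iso
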